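import Pool.Agent.H88.PW.Defs

/-!
# Spaces with two filtrations
-/

set_option autoImplicit false

open TensorProduct

namespace Pool.Agent.H88.PW

section tensor

variable {V V' : Type} [AddCommGroup V] [Module ℚ V] [AddCommGroup V'] [Module ℚ V']

theorem tmul_mem {F : ℤ → Submodule ℚ V} {F' : ℤ → Submodule ℚ V'} {v : V} {v' : V'} {i j : ℤ}
    (h : v ∈ F i) (h' : v' ∈ F' j) : v ⊗ₜ[ℚ] v' ∈ tensorFil F F' (i + j) := by
  refine Submodule.mem_iSup_of_mem i ?_
  have : i + j - i = j := by ring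
  rw [this]
  exact Submodule.apply_mem_map₂ _ h h'

theorem tmul_notMem {F : ℤ → Submodule ℚ V} {F' : ℤ → Submodule ℚ V'} (hF : Monotone F)
    (hF' : Monotone F') {v : V} {v' : V'} {a b : ℤ} (h : v ∉ F a) (h' : v' ∉ F' b) :
    v ⊗ₜ[ℚ] v' ∉ tensorFil F F' (a + b + 1) := by
  obtain ⟨f, hf, hf0⟩ := Submodule.exists_le_ker_of_notMem h
  obtain ⟨g, hg, hg0⟩ := Submodule.exists_le_ker_of_notMem h'
  intro hm
  have hle : tensorFil F F' (a + b + 1) ≤
      LinearMap.ker ((LinearMap.mul' ℚ ℚ) ∘ₗ TensorProduct.map f g) := by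
    refine iSup_le fun i => Submodule.map₂_le.2 fun x hx y hy => ?_
    rw [LinearMap.mem_ker]
    simp only [LinearMap.comp_apply, TensorProduct.mk_apply, TensorProduct.map_tmul,
      LinearMap.mul'_apply]
    rcases le_or_gt i a with hi | hi
    · have : f x = 0 := hf0 (hF hi hx)
      rw [this, zero_mul]
    · have : g y = 0 := hg0 (hF' (by omega) hy)
      rw [this, mul_zero]
  have h1 := hle hm
  rw [LinearMap.mem_ker] at h1
  simp only [LinearMap.comp_apply, TensorProduct.map_tmul, LinearMap.mul'_apply] at h1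
  rcases mul_eq_zero.1 h1 with h2 | h2
  · exact hf h2
  · exact hg h2

end tensor

namespace Bif

variable {A B C D : Bif}

theorem W_neg (A : Bif) {k : ℤ} (hk : k < 0) : A.W k = ⊥ := by
  rw [eq_bot_iff, ← A.negW]
  exact A.monoW (by omega)

theorem P_neg (A : Bif) {k : ℤ} (hk : k < 0) : A.P k = ⊥ := by
  rw [eq_bot_iff, ← A.negP]
  exact A.monoP (by omega)

theorem IsSummand.refl (A : Bif) : A.IsSummand A :=
  ⟨LinearMap.id, LinearMap.id, fun _ => rfl, fun _ =>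
    ⟨fun _ h => h, fun _ h => h, fun _ h => h, fun _ h => h⟩⟩

theorem IsSummand.trans (h1 : A.IsSummand B) (h2 : B.IsSummand C) : A.IsSummand C := by
  obtain ⟨i, r, hir, h⟩ := h1
  obtain ⟨i', r', hir', h'⟩ := h2
  refine ⟨i' ∘ₗ i, r ∘ₗ r', fun x => ?_, fun k => ⟨?_, ?_, ?_, ?_⟩⟩
  · simp [hir', hir]
  · exact fun x hx => (h' k).1 _ ((h k).1 x hx)
  · exact fun x hx => (h' k).2.1 _ ((h k).2.1 x hx)
  · exact fun x hx => (h k).2.2.1 _ ((h' k).2.2.1 x hx)
  · exact fun x hx => (h k).2.2.2 _ ((h' k).2.2.2 x hx)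

theorem IsSummand.q1 (h : A.IsSummand C) (hC : C.Q1) : A.Q1 := by
  obtain ⟨i, r, hir, h⟩ := h
  intro k
  refine le_antisymm (fun x hx => ?_) (A.monoW (by omega))
  have h1 := (h _).1 x hx
  rw [hC k] at h1
  rw [← hir x]
  exact (h _).2.2.1 _ h1

theorem IsSummand.winP {e : ℕ} (h : A.IsSummand C) (hC : C.WinP e) : A.WinP e := by
  obtain ⟨i, r, hir, h⟩ := h
  intro k x hx
  rw [← hir x]
  exact (h _).2.2.2 _ (hC k ((h _).1 x hx))

theorem IsSummand.pinW {e : ℕ} (h : A.IsSummand C) (hC : C.PinW e) : A.PinW e := by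
  obtain ⟨i, r, hir, h⟩ := h
  intro k x hx
  rw [← hir x]
  exact (h _).2.2.1 _ (hC k ((h _).2.1 x hx))

theorem IsSummand.oddInP (h : A.IsSummand C) (hC : C.OddInP) : A.OddInP := by
  obtain ⟨i, r, hir, h⟩ := h
  intro k x hx
  rw [← hir x]
  exact (h _).2.2.2 _ (hC k ((h _).1 x hx))

theorem both_iff : (A.Q1 ∧ A.Q2) ↔ (A.OddInP ∧ A.PinW 0) := by
  constructor
  · rintro ⟨h1, h2⟩
    refine ⟨fun k => ?_, fun k => ?_⟩
    · rw [h1 k, h2 k]
    · rw [← h2 k, Nat.cast_zero, add_zero]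
  · rintro ⟨h1, h2⟩
    have h3 : ∀ k, A.P k ≤ A.W (2 * k) := fun k => by
      have := h2 k
      rwa [Nat.cast_zero, add_zero] at this
    exact ⟨fun k => le_antisymm ((h1 k).trans (h3 k)) (A.monoW (by omega)),
      fun k => le_antisymm ((A.monoW (by omega)).trans (h1 k)) (h3 k)⟩

theorem OddInP.winP (h : A.OddInP) (e : ℕ) : A.WinP e := fun k =>
  ((A.monoW (by omega)).trans (h k)).trans (A.monoP (by omega))

theorem PinW.mono {e e' : ℕ} (h : A.PinW e) (he : e ≤ e') : A.PinW e' := fun k =>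
  (h k).trans (A.monoW (by omega))

section tens

theorem mem_iff {S : Submodule ℚ C.V} {R : Submodule ℚ (A.V ⊗[ℚ] B.V)}
    {κ : C.V ≃ₗ[ℚ] A.V ⊗[ℚ] B.V} (h : S.map κ.toLinearMap = R) (z : A.V ⊗[ℚ] B.V) :
    κ.symm z ∈ S ↔ z ∈ R := by
  rw [← h, Submodule.mem_map]
  constructor
  · intro hz
    exact ⟨_, hz, by simp⟩
  · rintro ⟨w, hw, rfl⟩
    simpa using hw

theorem mem_iff' {S : Submodule ℚ C.V} {R : Submodule ℚ (A.V ⊗[ℚ] B.V)}
    {κ : C.V ≃ₗ[ℚ] A.V ⊗[ℚ] B.V} (h : S.map κ.toLinearMap = R) (z : C.V) :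
    z ∈ S ↔ κ z ∈ R := by
  rw [← mem_iff h, LinearEquiv.symm_apply_apply]

theorem le_of_map_le {S S' : Submodule ℚ C.V} {κ : C.V ≃ₗ[ℚ] A.V ⊗[ℚ] B.V}
    (h : S.map κ.toLinearMap ≤ S'.map κ.toLinearMap) : S ≤ S' := by
  intro x hx
  obtain ⟨y, hy, hxy⟩ := h (Submodule.mem_map_of_mem hx)
  rw [← κ.injective hxy]
  exact hy

/-- A factor is a direct summand of the tensor product. -/
theorem IsTensor.left (h : C.IsTensor A B) : A.IsSummand C := by
  obtain ⟨κ, h⟩ := h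
  obtain ⟨l, hl⟩ : ∃ l : B.V →ₗ[ℚ] ℚ, l B.one = 1 := by
    obtain ⟨ψ, hψ⟩ : ∃ ψ : B.V →ₗ[ℚ] ℚ, ψ B.one ≠ 0 := by
      by_contra hcon
      push Not at hcon
      exact B.one_ne ((Module.forall_dual_apply_eq_zero_iff ℚ B.one).1 hcon)
    refine ⟨(ψ B.one)⁻¹ • ψ, ?_⟩
    rw [LinearMap.smul_apply, smul_eq_mul, inv_mul_cancel₀ hψ]
  let r0 : A.V ⊗[ℚ] B.V →ₗ[ℚ] A.V :=
    (TensorProduct.rid ℚ A.V).toLinearMap ∘ₗ TensorProduct.map LinearMap.id l
  have hr0 : ∀ a b, r0 (a ⊗ₜ b) = l b • a := fun a b => by simp [r0]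
  let i0 : A.V →ₗ[ℚ] A.V ⊗[ℚ] B.V := (TensorProduct.mk ℚ A.V B.V).flip B.one
  have hi0 : ∀ a, i0 a = a ⊗ₜ B.one := fun a => rfl
  have key : ∀ (F : ℤ → Submodule ℚ A.V) (G : ℤ → Submodule ℚ B.V), Monotone F → Monotone G →
      G (-1) = ⊥ → ∀ k, ∀ x ∈ tensorFil F G k, r0 x ∈ F k := by
    intro F G hF hG hneg k x hx
    have hle : tensorFil F G k ≤ (F k).comap r0 := by
      refine iSup_le fun i => Submodule.map₂_le.2 fun a ha b hb => ?_
      rw [Submodule.mem_comap, TensorProduct.mk_apply, hr0]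
      rcases le_or_gt i k with hi | hi
      · exact Submodule.smul_mem _ _ (hF hi ha)
      · have h1 : b ∈ G (-1) := hG (by omega) hb
        rw [hneg, Submodule.mem_bot] at h1
        rw [h1, map_zero, zero_smul]
        exact Submodule.zero_mem _
    exact hle hx
  refine ⟨κ.symm.toLinearMap ∘ₗ i0, r0 ∘ₗ κ.toLinearMap, fun x => ?_, fun k =>
    ⟨fun x hx => ?_, fun x hx => ?_, fun x hx => ?_, fun x hx => ?_⟩⟩
  · simp only [LinearMap.comp_apply, LinearEquiv.coe_coe, LinearEquiv.apply_symm_apply]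
    rw [hi0, hr0, hl, one_smul]
  · change κ.symm (i0 x) ∈ C.W k
    rw [mem_iff (h k).1, hi0]
    have := tmul_mem hx B.oneW
    rwa [add_zero] at this
  · change κ.symm (i0 x) ∈ C.P k
    rw [mem_iff (h k).2, hi0]
    have := tmul_mem hx B.oneP
    rwa [add_zero] at this
  · exact key _ _ A.monoW B.monoW B.negW k _ ((mem_iff' (h k).1 x).1 hx)
  · exact key _ _ A.monoP B.monoP B.negP k _ ((mem_iff' (h k).2 x).1 hx)

theorem tensorFil_comm {V V' : Type} [AddCommGroup V] [Module ℚ V] [AddCommGroup V']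
    [Module ℚ V'] (F : ℤ → Submodule ℚ V) (F' : ℤ → Submodule ℚ V') (k : ℤ) :
    (tensorFil F F' k).map (TensorProduct.comm ℚ V V').toLinearMap = tensorFil F' F k := by
  have key : ∀ {U U' : Type} [AddCommGroup U] [Module ℚ U] [AddCommGroup U'] [Module ℚ U']
      (G : ℤ → Submodule ℚ U) (G' : ℤ → Submodule ℚ U') (k : ℤ),
      (tensorFil G G' k).map (TensorProduct.comm ℚ U U').toLinearMap ≤ tensorFil G' G k := by
    intro U U' _ _ _ _ G G' k
    rw [Submodule.map_le_iff_le_comap]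
    refine iSup_le fun i => Submodule.map₂_le.2 fun a ha b hb => ?_
    rw [Submodule.mem_comap]
    change (b ⊗ₜ a : U' ⊗[ℚ] U) ∈ _
    have := tmul_mem hb ha
    rwa [sub_add_cancel] at this
  refine le_antisymm (key F F' k) fun x hx => ?_
  refine ⟨(TensorProduct.comm ℚ V' V) x, key F' F k (Submodule.mem_map_of_mem hx), ?_⟩
  exact (TensorProduct.comm ℚ V V').apply_symm_apply x

theorem IsTensor.comm (h : C.IsTensor A B) : C.IsTensor B A := by
  obtain ⟨κ, h⟩ := h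
  refine ⟨κ.trans (TensorProduct.comm ℚ A.V B.V), fun k => ⟨?_, ?_⟩⟩
  · rw [LinearEquiv.coe_trans, Submodule.map_comp, (h k).1]
    exact tensorFil_comm _ _ _
  · rw [LinearEquiv.coe_trans, Submodule.map_comp, (h k).2]
    exact tensorFil_comm _ _ _

theorem IsTensor.right (h : C.IsTensor A B) : B.IsSummand C := h.comm.left

theorem IsTensor.q1 (h : C.IsTensor A B) (hA : A.Q1) (hB : B.Q1) : C.Q1 := by
  obtain ⟨κ, h⟩ := h
  intro k
  refine le_antisymm (le_of_map_le (κ := κ) ?_) (C.monoW (by omega))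
  rw [(h _).1, (h _).1]
  refine iSup_le fun i => ?_
  rcases Int.even_or_odd' i with ⟨a, ha | ha⟩
  · refine le_iSup_of_le i (Submodule.map₂_le_map₂_right ?_)
    have h1 : 2 * k + 1 - i = 2 * (k - a) + 1 := by rw [ha]; ring
    have h2 : 2 * k - i = 2 * (k - a) := by rw [ha]; ring
    rw [h1, h2, hB]
  · refine le_iSup_of_le (2 * a) ?_
    have h1 : 2 * k + 1 - i = 2 * k - 2 * a := by rw [ha]; ring
    rw [h1, ha, hA]

theorem IsTensor.oddInP (h : C.IsTensor A B) (hA : A.OddInP) (hB : B.OddInP) : C.OddInP := by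
  obtain ⟨κ, h⟩ := h
  have hA' : ∀ k, A.W (2 * k) ≤ A.P k := fun k => (A.monoW (by omega)).trans (hA k)
  have hB' : ∀ k, B.W (2 * k) ≤ B.P k := fun k => (B.monoW (by omega)).trans (hB k)
  intro k
  refine le_of_map_le (κ := κ) ?_
  rw [(h _).1, (h _).2]
  refine iSup_le fun i => ?_
  rcases Int.even_or_odd' i with ⟨a, ha | ha⟩
  · refine le_iSup_of_le a ?_
    have h1 : 2 * k + 1 - i = 2 * (k - a) + 1 := by rw [ha]; ring
    rw [h1, ha]
    exact Submodule.map₂_le_map₂ (hA' a) (hB _)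
  · refine le_iSup_of_le a ?_
    have h1 : 2 * k + 1 - i = 2 * (k - a) := by rw [ha]; ring
    rw [h1, ha]
    exact Submodule.map₂_le_map₂ (hA a) (hB' _)

theorem IsTensor.pinW (h : C.IsTensor A B) (hA : A.PinW 0) (hB : B.PinW 0) : C.PinW 0 := by
  obtain ⟨κ, h⟩ := h
  intro k
  refine le_of_map_le (κ := κ) ?_
  rw [(h _).1, (h _).2]
  refine iSup_le fun i => le_iSup_of_le (2 * i) ?_
  have h1 : 2 * (k + ((0 : ℕ) : ℤ)) - 2 * i = 2 * (k - i) := by
    rw [Nat.cast_zero]; ring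
  rw [h1]
  refine Submodule.map₂_le_map₂ ?_ ?_
  · have := hA i
    rwa [Nat.cast_zero, add_zero] at this
  · have := hB (k - i)
    rwa [Nat.cast_zero, add_zero] at this

end tens

end Bif

end Pool.Agent.H88.PW
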