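import Pool.Agent.H88.PW.Fil

/-!
# Powers of a group
-/

set_option autoImplicit false

open TensorProduct

namespace Pool.Agent.H88.PW

/-- The group `G ^ (m + 1)`. -/
def Cl.pw (G : Cl) : ℕ → Cl
  | 0 => G
  | m + 1 => G.prod (Cl.pw G m)

namespace Bif

variable {A B C : Bif}

theorem IsTensor.cross (h : C.IsTensor A B) (x : A.V) (y : B.V) : ∃ z : C.V,
    (∀ i j, x ∈ A.W i → y ∈ B.W j → z ∈ C.W (i + j)) ∧
    (∀ i j, x ∈ A.P i → y ∈ B.P j → z ∈ C.P (i + j)) ∧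
    (∀ i j, x ∉ A.W i → y ∉ B.W j → z ∉ C.W (i + j + 1)) ∧
    (∀ i j, x ∉ A.P i → y ∉ B.P j → z ∉ C.P (i + j + 1)) := by
  obtain ⟨κ, h⟩ := h
  refine ⟨κ.symm (x ⊗ₜ y), fun i j hx hy => ?_, fun i j hx hy => ?_, fun i j hx hy => ?_,
    fun i j hx hy => ?_⟩
  · rw [mem_iff (h _).1]
    exact tmul_mem hx hy
  · rw [mem_iff (h _).2]
    exact tmul_mem hx hy
  · rw [mem_iff (h _).1]
    exact tmul_notMem A.monoW B.monoW hx hy
  · rw [mem_iff (h _).2]
    exact tmul_notMem A.monoP B.monoP hx hy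

end Bif

variable (T : Theory) (X : T.Var) (G : Cl)

/-- Tensor powers of a class. -/
theorem power (x : (T.coh X G).V) (m : ℕ) : ∃ y : (T.coh X (G.pw m)).V,
    (∀ k, x ∈ (T.coh X G).W k → y ∈ (T.coh X (G.pw m)).W ((m + 1) * k)) ∧
    (∀ k, x ∈ (T.coh X G).P k → y ∈ (T.coh X (G.pw m)).P ((m + 1) * k)) ∧
    (∀ k, x ∉ (T.coh X G).W k → y ∉ (T.coh X (G.pw m)).W ((m + 1) * k + m)) ∧
    (∀ k, x ∉ (T.coh X G).P k → y ∉ (T.coh X (G.pw m)).P ((m + 1) * k + m)) := by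
  induction m with
  | zero =>
    refine ⟨x, ?_, ?_, ?_, ?_⟩ <;>
    · intro k hk
      have h1 : (((0 : ℕ) : ℤ) + 1) * k + ((0 : ℕ) : ℤ) = k := by push_cast; ring
      have h2 : (((0 : ℕ) : ℤ) + 1) * k = k := by push_cast; ring
      first
        | rw [h1]; exact hk
        | rw [h2]; exact hk
  | succ m ih =>
    obtain ⟨y, h1, h2, h3, h4⟩ := ih
    obtain ⟨z, g1, g2, g3, g4⟩ := (T.kunneth X G (G.pw m)).cross x y
    refine ⟨z, fun k hk => ?_, fun k hk => ?_, fun k hk => ?_, fun k hk => ?_⟩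
    · have := g1 _ _ hk (h1 k hk)
      have e : (((m + 1 : ℕ) : ℤ) + 1) * k = k + (m + 1) * k := by push_cast; ring
      rw [e]
      exact this
    · have := g2 _ _ hk (h2 k hk)
      have e : (((m + 1 : ℕ) : ℤ) + 1) * k = k + (m + 1) * k := by push_cast; ring
      rw [e]
      exact this
    · have := g3 _ _ hk (h3 k hk)
      have e : (((m + 1 : ℕ) : ℤ) + 1) * k + ((m + 1 : ℕ) : ℤ) =
        k + ((m + 1) * k + m) + 1 := by push_cast; ring
      rw [e]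
      exact this
    · have := g4 _ _ hk (h4 k hk)
      have e : (((m + 1 : ℕ) : ℤ) + 1) * k + ((m + 1 : ℕ) : ℤ) =
        k + ((m + 1) * k + m) + 1 := by push_cast; ring
      rw [e]
      exact this

/-- An approximate inclusion for a power gives the exact inclusion. -/
theorem pinW_of_pw {e m : ℕ} (hm : 2 * e ≤ m) (h : (T.coh X (G.pw m)).PinW e) :
    (T.coh X G).PinW 0 := by
  intro k x hx
  rw [Nat.cast_zero, add_zero]
  by_contra hc
  obtain ⟨y, h1, h2, h3, h4⟩ := power T X G x m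
  refine h3 _ hc ((T.coh X (G.pw m)).monoW ?_ (h _ (h2 k hx)))
  have : ((m : ℤ) + 1) * (2 * k) = 2 * (((m : ℤ) + 1) * k) := by ring
  rw [this]
  omega

theorem oddInP_of_pw {e m : ℕ} (hm : 2 * e + 2 ≤ m) (h : (T.coh X (G.pw m)).WinP e) :
    (T.coh X G).OddInP := by
  intro k x hx
  by_contra hc
  obtain ⟨y, h1, h2, h3, h4⟩ := power T X G x m
  have h5 : y ∈ (T.coh X (G.pw m)).W (2 * (((m : ℤ) + 1) * k + ((m : ℤ) + 2) / 2)) := by
    refine (T.coh X (G.pw m)).monoW ?_ (h1 _ hx)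
    have : ((m : ℤ) + 1) * (2 * k + 1) = 2 * (((m : ℤ) + 1) * k) + (m + 1) := by ring
    rw [this]
    omega
  refine h4 _ hc ((T.coh X (G.pw m)).monoP ?_ (h _ h5))
  omega

end Pool.Agent.H88.PW
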