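import Pool.Agent.H88.PW.Mat2
import Pool.Agent.H88.PW.Pow

/-!
# Centralizers of finite subgroups in the classical groups
-/

set_option autoImplicit false

open Matrix

namespace Pool.Agent.H88.PW

namespace Cl

theorem split_gl (a b : ℕ) : ((gl a).prod (gl b)).IsCentralizer (gl (a + b)) := by
  have h1 := centIn_split (0 : Matrix (Fin a) (Fin a) ℂ) (0 : Matrix (Fin b) (Fin b) ℂ)
  have h2 := centIn_rx h1 (finSumFinEquiv (m := a) (n := b)) (B' := 0) (by
    rw [fromBlocks_zero]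
    rfl)
  rw [isom_zero, isom_zero, isom_zero] at h2
  exact h2

theorem split_o (a b : ℕ) : ((o a).prod (o b)).IsCentralizer (o (a + b)) := by
  have h1 := centIn_split (1 : Matrix (Fin a) (Fin a) ℂ) (1 : Matrix (Fin b) (Fin b) ℂ)
  exact centIn_rx h1 (finSumFinEquiv (m := a) (n := b)) (B' := 1) (by
    rw [fromBlocks_one, Matrix.submatrix_one_equiv])

/-- the form of the symplectic group -/
def J (ι : Type) [DecidableEq ι] : Matrix (ι ⊕ ι) (ι ⊕ ι) ℂ := fromBlocks 0 1 (-1) 0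

theorem J_sub {ι κ : Type} [DecidableEq ι] [DecidableEq κ] (e : ι ≃ κ) :
    (J ι).submatrix (Equiv.sumCongr e e).symm (Equiv.sumCongr e e).symm = J κ := by
  ext i j
  rcases i with i | i <;> rcases j with j | j <;>
    simp [J, Matrix.one_apply]

theorem J_sum (ι κ : Type) [DecidableEq ι] [DecidableEq κ] :
    (fromBlocks (J ι) 0 0 (J κ)).submatrix (Equiv.sumSumSumComm ι ι κ κ).symm
      (Equiv.sumSumSumComm ι ι κ κ).symm = J (ι ⊕ κ) := by
  ext i j
  rcases i with (i | i) | (i | i) <;> rcases j with (j | j) | (j | j) <;>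
    simp [J, Matrix.one_apply]

theorem split_sp (a b : ℕ) : ((sp a).prod (sp b)).IsCentralizer (sp (a + b)) := by
  have h1 := centIn_split (J (Fin a)) (J (Fin b))
  have h2 := centIn_rx h1 (Equiv.sumSumSumComm (Fin a) (Fin a) (Fin b) (Fin b)) (J_sum _ _)
  exact centIn_rx h2 (Equiv.sumCongr finSumFinEquiv finSumFinEquiv) (J_sub _)

theorem gl_sp (n : ℕ) : (gl n).IsCentralizer (sp n) := centIn_lag (ι := Fin n)

theorem o_sp (n : ℕ) : (o n).IsCentralizer (sp n) := centIn_dbl (1 : Matrix (Fin n) (Fin n) ℂ)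

/-- the root of the symmetric form -/
noncomputable def rt {ι : Type} [DecidableEq ι] (B : Matrix ι ι ℂ) : Matrix ι ι ℂ :=
  ((1 + Complex.I) / 2) • 1 + ((1 - Complex.I) / 2) • B

theorem rt_sq {ι : Type} [Fintype ι] [DecidableEq ι] {B : Matrix ι ι ℂ} (hB : B * B = 1) :
    rt B * rt B = B := by
  have h1 : ((1 + Complex.I) / 2) * ((1 + Complex.I) / 2) = Complex.I / 2 := by
    have := Complex.I_sq
    linear_combination (1 / 4 : ℂ) * this
  have h2 : ((1 - Complex.I) / 2) * ((1 - Complex.I) / 2) = -(Complex.I / 2) := by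
    have := Complex.I_sq
    linear_combination (1 / 4 : ℂ) * this
  have h3 : ((1 + Complex.I) / 2) * ((1 - Complex.I) / 2) = 1 / 2 := by
    have := Complex.I_sq
    linear_combination (-1 / 4 : ℂ) * this
  have h4 : ((1 - Complex.I) / 2) * ((1 + Complex.I) / 2) = 1 / 2 := by
    rw [mul_comm]
    exact h3
  rw [rt, Matrix.add_mul, Matrix.mul_add, Matrix.mul_add]
  simp only [Matrix.smul_mul, Matrix.mul_smul, Matrix.one_mul, Matrix.mul_one, smul_smul, hB]
  rw [h1, h2, h3, h4]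
  have h5 : (Complex.I / 2) • (1 : Matrix ι ι ℂ) + (1 / 2 : ℂ) • B +
      ((1 / 2 : ℂ) • B + (-(Complex.I / 2)) • (1 : Matrix ι ι ℂ)) = (1 / 2 + 1 / 2 : ℂ) • B := by
    rw [neg_smul, add_smul]
    abel
  rw [h5]
  norm_num

theorem rt_transpose {ι : Type} [DecidableEq ι] {B : Matrix ι ι ℂ} (hB : Bᵀ = B) :
    (rt B)ᵀ = rt B := by
  rw [rt, Matrix.transpose_add, Matrix.transpose_smul, Matrix.transpose_smul,
    Matrix.transpose_one, hB]

/-- the root as an invertible matrix -/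
noncomputable def rtU {ι : Type} [Fintype ι] [DecidableEq ι] (B : Matrix ι ι ℂ)
    (hB : B * B = 1) : GL ι ℂ where
  val := rt B
  inv := rt B * B
  val_inv := by rw [← Matrix.mul_assoc, rt_sq hB, hB]
  inv_val := by
    have h1 : rt B * B = B * rt B := by
      rw [rt, Matrix.add_mul, Matrix.mul_add]
      simp only [Matrix.smul_mul, Matrix.mul_smul, Matrix.one_mul, Matrix.mul_one]
    rw [h1, Matrix.mul_assoc, rt_sq hB, hB]

theorem J_sq (ι : Type) [Fintype ι] [DecidableEq ι] : J ι * J ι = -1 := by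
  rw [J, fromBlocks_multiply, ← fromBlocks_one, fromBlocks_neg]
  simp

theorem J_transpose (ι : Type) [DecidableEq ι] : (J ι)ᵀ = -J ι := by
  rw [J, fromBlocks_transpose, fromBlocks_neg]
  simp

theorem sp_o (n : ℕ) : (sp n).IsCentralizer (o (n + n + (n + n))) := by
  have h1 := centIn_dbl (J (Fin n))
  have hB : (fromBlocks 0 (J (Fin n)) (-J (Fin n)) 0 : Matrix ((Fin n ⊕ Fin n) ⊕ (Fin n ⊕ Fin n))
      ((Fin n ⊕ Fin n) ⊕ (Fin n ⊕ Fin n)) ℂ) * fromBlocks 0 (J (Fin n)) (-J (Fin n)) 0 = 1 := by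
    rw [fromBlocks_multiply, ← fromBlocks_one]
    simp [J_sq]
  have hBt : (fromBlocks 0 (J (Fin n)) (-J (Fin n)) 0 : Matrix ((Fin n ⊕ Fin n) ⊕ (Fin n ⊕ Fin n))
      ((Fin n ⊕ Fin n) ⊕ (Fin n ⊕ Fin n)) ℂ)ᵀ = fromBlocks 0 (J (Fin n)) (-J (Fin n)) 0 := by
    rw [fromBlocks_transpose]
    simp [J_transpose]
  have h2 := centIn_cj h1 (S := rtU _ hB) (B' := 1) (by
    change (rt _)ᵀ * 1 * rt _ = _
    rw [rt_transpose hBt, Matrix.mul_one, rt_sq hB])
  exact centIn_rx h2 ((Equiv.sumCongr finSumFinEquiv finSumFinEquiv).trans finSumFinEquiv)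
    (Matrix.submatrix_one_equiv _)

theorem cent_refl (G : Cl) : G.IsCentralizer G := CentIn.refl G.pts

theorem cent_prod (G : Cl) {H K : Cl} (h : H.IsCentralizer K) :
    (G.prod H).IsCentralizer (G.prod K) := CentIn.prod G.pts h

/-- Chains of centralizers. -/
def Chain (H G : Cl) : Prop := Relation.ReflTransGen IsCentralizer H G

theorem Chain.prod (G : Cl) {H K : Cl} (h : Chain H K) : Chain (G.prod H) (G.prod K) :=
  Relation.ReflTransGen.lift (fun x => G.prod x) (fun _ _ => cent_prod G) _ _ h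

/-- The families of groups. -/
def IsFamily (f : ℕ → Cl) : Prop := ∀ a b, ((f a).prod (f b)).IsCentralizer (f (a + b))

theorem IsFamily.pw {f : ℕ → Cl} (hf : IsFamily f) (a m : ℕ) :
    Chain ((f a).pw m) (f (a * (m + 1))) := by
  induction m with
  | zero =>
    rw [zero_add, mul_one]
    exact Relation.ReflTransGen.refl
  | succ m ih =>
    have h1 : Chain ((f a).prod ((f a).pw m)) ((f a).prod (f (a * (m + 1)))) := ih.prod _
    have h2 := hf a (a * (m + 1))
    have h3 : a + a * (m + 1) = a * (m + 1 + 1) := by ring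
    rw [h3] at h2
    exact h1.tail h2

theorem IsFamily.pw' {f : ℕ → Cl} (hf : IsFamily f) {a m n : ℕ} (hn : a * (m + 1) ≤ n) :
    Chain ((f (n - a * (m + 1))).prod ((f a).pw m)) (f n) := by
  have h1 := (hf.pw a m).prod (f (n - a * (m + 1)))
  have h2 := hf (n - a * (m + 1)) (a * (m + 1))
  rw [Nat.sub_add_cancel hn] at h2
  exact h1.tail h2

end Cl

namespace Theory

variable (T : Theory)

theorem chain {H G : Cl} (h : Cl.Chain H G) (X : T.Var) :
    ∃ S : T.Var, T.surf S ∧ (T.coh X H).IsSummand (T.coh S G) := by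
  induction h with
  | refl => exact T.centralizer X H H (Cl.cent_refl H)
  | tail _ h ih =>
    obtain ⟨S, hS, h1⟩ := ih
    obtain ⟨S', hS', h2⟩ := T.centralizer S _ _ h
    exact ⟨S', hS', h1.trans h2⟩

/-- **The powers of the members of a family.** -/
theorem pw_summand {f : ℕ → Cl} (hf : Cl.IsFamily f) {a m n : ℕ} (hn : a * (m + 1) ≤ n)
    (X : T.Var) : ∃ S : T.Var, T.surf S ∧ (T.coh X ((f a).pw m)).IsSummand (T.coh S (f n)) := by
  obtain ⟨S, hS, h1⟩ := T.chain (hf.pw' hn) X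
  exact ⟨S, hS, (T.kunneth X _ _).right.trans h1⟩

end Theory

end Pool.Agent.H88.PW
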