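import Mathlib

/-!
# `P = W` for products of classical groups: definitions
-/

set_option autoImplicit false

open Matrix TensorProduct

namespace Pool.Agent.H88.PW

section groups

variable {ι κ : Type} [Fintype ι] [DecidableEq ι] [Fintype κ] [DecidableEq κ]

/-- The group of the invertible complex matrices `g` with `gᵀ B g = B`. -/
def isom (B : Matrix ι ι ℂ) : Subgroup (GL ι ℂ) where
  carrier := {g | (g : Matrix ι ι ℂ)ᵀ * B * g = B}
  one_mem' := by simp
  mul_mem' := by
    intro a b ha hb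
    rw [Set.mem_ofPred_eq] at *
    rw [Units.val_mul, Matrix.transpose_mul]
    calc (b : Matrix ι ι ℂ)ᵀ * (a : Matrix ι ι ℂ)ᵀ * B * (a * b) =
        (b : Matrix ι ι ℂ)ᵀ * ((a : Matrix ι ι ℂ)ᵀ * B * a) * b := by
          simp only [Matrix.mul_assoc]
      _ = B := by rw [ha, hb]
  inv_mem' := by
    intro a ha
    rw [Set.mem_ofPred_eq] at *
    have h1 : (a : Matrix ι ι ℂ) * ((a⁻¹ : GL ι ℂ) : Matrix ι ι ℂ) = 1 := by
      rw [← Units.val_mul, mul_inv_cancel, Units.val_one]
    have h2 : ((a⁻¹ : GL ι ℂ) : Matrix ι ι ℂ)ᵀ * (a : Matrix ι ι ℂ)ᵀ = 1 := by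
      rw [← Matrix.transpose_mul, h1, Matrix.transpose_one]
    calc ((a⁻¹ : GL ι ℂ) : Matrix ι ι ℂ)ᵀ * B * ((a⁻¹ : GL ι ℂ) : Matrix ι ι ℂ) =
        ((a⁻¹ : GL ι ℂ) : Matrix ι ι ℂ)ᵀ * ((a : Matrix ι ι ℂ)ᵀ * B * a) *
          ((a⁻¹ : GL ι ℂ) : Matrix ι ι ℂ) := by rw [ha]
      _ = (((a⁻¹ : GL ι ℂ) : Matrix ι ι ℂ)ᵀ * (a : Matrix ι ι ℂ)ᵀ) * B *
          ((a : Matrix ι ι ℂ) * ((a⁻¹ : GL ι ℂ) : Matrix ι ι ℂ)) := by
          simp only [Matrix.mul_assoc]
      _ = B := by rw [h1, h2, Matrix.one_mul, Matrix.mul_one]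

/-- The block diagonal matrices. -/
def blockHom : Matrix ι ι ℂ × Matrix κ κ ℂ →* Matrix (ι ⊕ κ) (ι ⊕ κ) ℂ where
  toFun p := fromBlocks p.1 0 0 p.2
  map_one' := fromBlocks_one
  map_mul' p q := by simp [fromBlocks_multiply]

/-- The product of two groups of matrices, as a group of block diagonal matrices. -/
def blockProd (K : Subgroup (GL ι ℂ)) (L : Subgroup (GL κ ℂ)) : Subgroup (GL (ι ⊕ κ) ℂ) :=
  (K.prod L).map ((Units.map blockHom).comp MulEquiv.prodUnits.symm.toMonoidHom)

/-- The algebra of the regular functions on a group of matrices: the polynomials in the entries of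
the matrices `g` and `g⁻¹`. -/
def regular (K : Subgroup (GL ι ℂ)) : Subalgebra ℂ (K → ℂ) :=
  Algebra.adjoin ℂ {f | ∃ i j, (f = fun g : K => (g : GL ι ℂ) i j) ∨
    f = fun g : K => ((g : GL ι ℂ)⁻¹ : GL ι ℂ) i j}

/-- The groups are isomorphic as algebraic groups. -/
def AlgIso (K : Subgroup (GL ι ℂ)) (L : Subgroup (GL κ ℂ)) : Prop :=
  ∃ e : K ≃* L, (∀ f ∈ regular L, f ∘ e ∈ regular K) ∧ ∀ f ∈ regular K, f ∘ e.symm ∈ regular L

end groups

/-- Names for the finite products of the groups `GL_n`, `O_n`, `Sp_{2n}` over the complex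
numbers. -/
inductive Cl : Type
  | gl (n : ℕ) : Cl
  | o (n : ℕ) : Cl
  | sp (n : ℕ) : Cl
  | prod (G H : Cl) : Cl

namespace Cl

/-- The index set of the matrices. -/
def Idx : Cl → Type
  | gl n => Fin n
  | o n => Fin n
  | sp n => Fin n ⊕ Fin n
  | prod G H => G.Idx ⊕ H.Idx

instance instFintype : (G : Cl) → Fintype G.Idx
  | gl n => inferInstanceAs (Fintype (Fin n))
  | o n => inferInstanceAs (Fintype (Fin n))
  | sp n => inferInstanceAs (Fintype (Fin n ⊕ Fin n))
  | prod G H => by
    have := instFintype G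
    have := instFintype H
    exact inferInstanceAs (Fintype (G.Idx ⊕ H.Idx))

instance instDec : (G : Cl) → DecidableEq G.Idx
  | gl n => inferInstanceAs (DecidableEq (Fin n))
  | o n => inferInstanceAs (DecidableEq (Fin n))
  | sp n => inferInstanceAs (DecidableEq (Fin n ⊕ Fin n))
  | prod G H => by
    have := instDec G
    have := instDec H
    exact inferInstanceAs (DecidableEq (G.Idx ⊕ H.Idx))

/-- The group of matrices. -/
def pts : (G : Cl) → Subgroup (GL G.Idx ℂ)
  | gl n => (⊤ : Subgroup (GL (Fin n) ℂ))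
  | o n => isom (1 : Matrix (Fin n) (Fin n) ℂ)
  | sp n => isom (fromBlocks 0 1 (-1) 0 : Matrix (Fin n ⊕ Fin n) (Fin n ⊕ Fin n) ℂ)
  | prod G H => blockProd G.pts H.pts

/-- `H` is isomorphic, as an algebraic group, to the centralizer in `G` of a finite subgroup
of `G`. -/
def IsCentralizer (H G : Cl) : Prop :=
  ∃ F : Subgroup (GL G.Idx ℂ), Finite F ∧ F ≤ G.pts ∧
    AlgIso (G.pts ⊓ Subgroup.centralizer (F : Set (GL G.Idx ℂ))) H.pts

end Cl

/-- The tensor product of two increasing filtrations: its `k`-th step is the sum of the subspaces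
`F i ⊗ F' (k - i)`. -/
noncomputable def tensorFil {V V' : Type} [AddCommGroup V] [Module ℚ V] [AddCommGroup V']
    [Module ℚ V'] (F : ℤ → Submodule ℚ V) (F' : ℤ → Submodule ℚ V') (k : ℤ) :
    Submodule ℚ (V ⊗[ℚ] V') :=
  ⨆ i : ℤ, Submodule.map₂ (TensorProduct.mk ℚ V V') (F i) (F' (k - i))

/-- A rational vector space (in the intended use: the intersection cohomology of the moduli space
of representations, identified with the one of the moduli space of Higgs bundles) with two
increasing filtrations (the weight filtration `W` and the perverse filtration `P`) which start at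
zero, and a nonzero element (the class `1`) in the step zero of both filtrations. -/
structure Bif where
  /-- the space -/
  V : Type
  [grp : AddCommGroup V]
  [mod : Module ℚ V]
  /-- the weight filtration -/
  W : ℤ → Submodule ℚ V
  /-- the perverse filtration -/
  P : ℤ → Submodule ℚ V
  monoW : Monotone W
  monoP : Monotone P
  negW : W (-1) = ⊥
  negP : P (-1) = ⊥
  /-- the class `1` -/
  one : V
  one_ne : one ≠ 0
  oneW : one ∈ W 0
  oneP : one ∈ P 0

attribute [instance] Bif.grp Bif.mod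

namespace Bif

/-- Q1: `W_{2k+1} = W_{2k}` for all `k`. -/
def Q1 (A : Bif) : Prop := ∀ k : ℤ, A.W (2 * k + 1) = A.W (2 * k)

/-- Q2: `W_{2k} = P_k` for all `k`. -/
def Q2 (A : Bif) : Prop := ∀ k : ℤ, A.W (2 * k) = A.P k

/-- `W_{2k} ⊆ P_{k+e}` for all `k`. -/
def WinP (e : ℕ) (A : Bif) : Prop := ∀ k : ℤ, A.W (2 * k) ≤ A.P (k + e)

/-- `P_k ⊆ W_{2(k+e)}` for all `k`. -/
def PinW (e : ℕ) (A : Bif) : Prop := ∀ k : ℤ, A.P k ≤ A.W (2 * (k + e))

/-- `W_{2k+1} ⊆ P_k` for all `k`. -/
def OddInP (A : Bif) : Prop := ∀ k : ℤ, A.W (2 * k + 1) ≤ A.P k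

/-- `C` is the tensor product of `A` and `B`, with the tensor products of the filtrations. -/
def IsTensor (C A B : Bif) : Prop :=
  ∃ κ : C.V ≃ₗ[ℚ] A.V ⊗[ℚ] B.V, ∀ k : ℤ,
    (C.W k).map κ.toLinearMap = tensorFil A.W B.W k ∧
      (C.P k).map κ.toLinearMap = tensorFil A.P B.P k

/-- `A` is a direct summand of `C`, compatibly with the filtrations. -/
def IsSummand (A C : Bif) : Prop :=
  ∃ (i : A.V →ₗ[ℚ] C.V) (r : C.V →ₗ[ℚ] A.V), (∀ x, r (i x) = x) ∧ ∀ k : ℤ,
    (∀ x ∈ A.W k, i x ∈ C.W k) ∧ (∀ x ∈ A.P k, i x ∈ C.P k) ∧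
      (∀ x ∈ C.W k, r x ∈ A.W k) ∧ ∀ x ∈ C.P k, r x ∈ A.P k

end Bif

/-- The intersection cohomology of the moduli spaces, for the connected smooth complex projective
varieties and the products of classical groups. -/
structure Theory where
  /-- the varieties -/
  Var : Type
  /-- a class of surfaces which contains the smooth two-dimensional linear sections of high degree
  of all varieties, for instance the surfaces with ample canonical bundle -/
  surf : Var → Prop
  /-- the intersection cohomology -/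
  coh : Var → Cl → Bif
  /-- the moduli space for `G × H` is the product of those for `G` and `H` -/
  kunneth : ∀ (X : Var) (G H : Cl), (coh X (G.prod H)).IsTensor (coh X G) (coh X H)
  /-- if `H` is the centralizer in `G` of the finite group `F`, and the surface `S` is a linear
  section of `X × Y`, where `Y` is a variety with fundamental group `F`, then the moduli space for
  `X` and `H` is a union of connected components of the one for `S` and `G` -/
  centralizer : ∀ (X : Var) (G H : Cl), H.IsCentralizer G →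
    ∃ S : Var, surf S ∧ (coh X H).IsSummand (coh S G)

end Pool.Agent.H88.PW
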