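import Pool.Agent.H88.PW.Defs

/-!
# Regular functions and algebraic isomorphisms of groups of matrices
-/

set_option autoImplicit false

open Matrix

namespace Pool.Agent.H88.PW

variable {ι κ μ ν : Type} [Fintype ι] [DecidableEq ι] [Fintype κ] [DecidableEq κ] [Fintype μ]
  [DecidableEq μ] [Fintype ν] [DecidableEq ν]

theorem entry_mem (K : Subgroup (GL ι ℂ)) (i j : ι) :
    (fun g : K => (g : GL ι ℂ) i j) ∈ regular K :=
  Algebra.subset_adjoin ⟨i, j, Or.inl rfl⟩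

theorem inv_entry_mem (K : Subgroup (GL ι ℂ)) (i j : ι) :
    (fun g : K => ((g : GL ι ℂ)⁻¹ : GL ι ℂ) i j) ∈ regular K :=
  Algebra.subset_adjoin ⟨i, j, Or.inr rfl⟩

theorem const_mem (K : Subgroup (GL ι ℂ)) (c : ℂ) : (fun _ : K => c) ∈ regular K :=
  (regular K).algebraMap_mem c

theorem inv_mem {K : Subgroup (GL ι ℂ)} {f : K → ℂ} (hf : f ∈ regular K) :
    (fun g : K => f g⁻¹) ∈ regular K := by
  rw [regular] at hf
  induction hf using Algebra.adjoin_induction with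
  | mem f hf =>
    obtain ⟨i, j, rfl | rfl⟩ := hf
    · exact inv_entry_mem K i j
    · have h1 : (fun g : K => (((g⁻¹ : K) : GL ι ℂ)⁻¹ : GL ι ℂ) i j) =
          fun g : K => (g : GL ι ℂ) i j := by
        funext g
        rw [Subgroup.coe_inv, inv_inv]
      rw [h1]
      exact entry_mem K i j
  | algebraMap r => exact const_mem K r
  | add f g _ _ hf hg => exact Subalgebra.add_mem _ hf hg
  | mul f g _ _ hf hg => exact Subalgebra.mul_mem _ hf hg

theorem comp_mem {K : Subgroup (GL ι ℂ)} {L : Subgroup (GL κ ℂ)} (e : K →* L)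
    (h : ∀ i j, (fun g : K => (e g : GL κ ℂ) i j) ∈ regular K) {f : L → ℂ}
    (hf : f ∈ regular L) : f ∘ e ∈ regular K := by
  rw [regular] at hf
  induction hf using Algebra.adjoin_induction with
  | mem f hf =>
    obtain ⟨i, j, rfl | rfl⟩ := hf
    · exact h i j
    · have h1 : ((fun g : L => ((g : GL κ ℂ)⁻¹ : GL κ ℂ) i j) ∘ e) =
          fun g : K => (fun g : K => (e g : GL κ ℂ) i j) g⁻¹ := by
        funext g
        simp only [Function.comp_apply]
        rw [map_inv, Subgroup.coe_inv]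
      rw [h1]
      exact inv_mem (h i j)
  | algebraMap r => exact const_mem K r
  | add f g _ _ hf hg => exact Subalgebra.add_mem _ hf hg
  | mul f g _ _ hf hg => exact Subalgebra.mul_mem _ hf hg

theorem AlgIso.refl (K : Subgroup (GL ι ℂ)) : AlgIso K K :=
  ⟨MulEquiv.refl K, fun _ h => h, fun _ h => h⟩

theorem AlgIso.symm {K : Subgroup (GL ι ℂ)} {L : Subgroup (GL κ ℂ)} (h : AlgIso K L) :
    AlgIso L K := by
  obtain ⟨e, h1, h2⟩ := h
  exact ⟨e.symm, h2, h1⟩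

theorem AlgIso.trans {K : Subgroup (GL ι ℂ)} {L : Subgroup (GL κ ℂ)} {M : Subgroup (GL μ ℂ)}
    (h : AlgIso K L) (h' : AlgIso L M) : AlgIso K M := by
  obtain ⟨e, h1, h2⟩ := h
  obtain ⟨e', h1', h2'⟩ := h'
  exact ⟨e.trans e', fun f hf => h1 _ (h1' f hf), fun f hf => h2' _ (h2 f hf)⟩

/-- Images under homomorphisms given by regular functions with a regular inverse. -/
theorem algIso_of {u : GL κ ℂ →* GL ι ℂ} {w : GL ι ℂ → Matrix κ κ ℂ} (hw : ∀ A, w (u A) = A)
    (L : Subgroup (GL κ ℂ)) (h1 : ∀ i j, (fun A : L => (u A) i j) ∈ regular L)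
    (h2 : ∀ i j, (fun g : L.map u => w g i j) ∈ regular (L.map u)) : AlgIso (L.map u) L := by
  have hu : Function.Injective u := by
    intro A B hAB
    apply Units.ext
    rw [← hw A, ← hw B, hAB]
  refine AlgIso.symm ⟨L.equivMapOfInjective u hu, fun f hf => ?_, fun f hf => ?_⟩
  · refine comp_mem (L.equivMapOfInjective u hu).toMonoidHom ?_ hf
    intro i j
    exact h1 i j
  · refine comp_mem (L.equivMapOfInjective u hu).symm.toMonoidHom ?_ hf
    intro i j
    have h3 : (fun g : L.map u =>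
        (((L.equivMapOfInjective u hu).symm.toMonoidHom g : L) : GL κ ℂ) i j) =
        fun g : L.map u => w g i j := by
      funext g
      have h4 : (g : GL ι ℂ) = u ((L.equivMapOfInjective u hu).symm g : L) := by
        rw [← Subgroup.coe_equivMapOfInjective_apply L u hu]
        rw [MulEquiv.apply_symm_apply]
      rw [h4, hw]
      rfl
    rw [h3]
    exact h2 i j

/-- `L` is isomorphic to the centralizer in `M` of a finite subgroup. -/
def CentIn (L : Subgroup (GL κ ℂ)) (M : Subgroup (GL ι ℂ)) : Prop :=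
  ∃ F : Subgroup (GL ι ℂ), Finite F ∧ F ≤ M ∧
    AlgIso (M ⊓ Subgroup.centralizer (F : Set (GL ι ℂ))) L

theorem isCentralizer_iff {G H : Cl} : H.IsCentralizer G ↔ CentIn H.pts G.pts := Iff.rfl

theorem CentIn.of_iso {L : Subgroup (GL κ ℂ)} {L' : Subgroup (GL μ ℂ)} {M : Subgroup (GL ι ℂ)}
    (h : CentIn L M) (hL : AlgIso L L') : CentIn L' M := by
  obtain ⟨F, hF, hFM, h⟩ := h
  exact ⟨F, hF, hFM, h.trans hL⟩

theorem CentIn.refl (M : Subgroup (GL ι ℂ)) : CentIn M M := by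
  refine ⟨⊥, inferInstance, bot_le, ?_⟩
  have h1 : M ⊓ Subgroup.centralizer ((⊥ : Subgroup (GL ι ℂ)) : Set (GL ι ℂ)) = M := by
    rw [inf_eq_left]
    intro g _
    rw [Subgroup.mem_centralizer_iff]
    intro h hh
    have h2 : h = 1 := by simpa using hh
    rw [h2, one_mul, mul_one]
  rw [h1]
  exact AlgIso.refl M

theorem CentIn.transport {L : Subgroup (GL μ ℂ)} {M : Subgroup (GL ι ℂ)} (h : CentIn L M)
    (v : GL ι ℂ ≃* GL κ ℂ) (hv : ∀ K : Subgroup (GL ι ℂ), AlgIso (K.map v.toMonoidHom) K) :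
    CentIn L (M.map v.toMonoidHom) := by
  obtain ⟨F, hF, hFM, h⟩ := h
  refine ⟨F.map v.toMonoidHom, ?_, Subgroup.map_mono hFM, ?_⟩
  · exact Finite.of_surjective (fun x : F => (⟨v x, Subgroup.mem_map_of_mem v.toMonoidHom x.2⟩ :
      F.map v.toMonoidHom)) (by
        rintro ⟨_, x, hx, rfl⟩
        exact ⟨⟨x, hx⟩, rfl⟩)
  · have h1 : M.map v.toMonoidHom ⊓
        Subgroup.centralizer ((F.map v.toMonoidHom : Subgroup (GL κ ℂ)) : Set (GL κ ℂ)) =
        (M ⊓ Subgroup.centralizer (F : Set (GL ι ℂ))).map v.toMonoidHom := by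
      ext g
      rw [Subgroup.mem_inf, Subgroup.mem_map, Subgroup.mem_map, Subgroup.mem_centralizer_iff]
      constructor
      · rintro ⟨⟨m, hm, rfl⟩, hc⟩
        refine ⟨m, ⟨hm, ?_⟩, rfl⟩
        refine Subgroup.mem_centralizer_iff.2 ?_
        intro f hf
        have h2 := hc (v f) (Subgroup.mem_map_of_mem v.toMonoidHom hf)
        have h3 : v (f * m) = v (m * f) := by rw [map_mul, map_mul]; exact h2
        exact v.injective h3
      · rintro ⟨m, hm, rfl⟩
        have h2 := Subgroup.mem_centralizer_iff.1 hm.2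
        refine ⟨⟨m, hm.1, rfl⟩, ?_⟩
        rintro _ ⟨f, hf, rfl⟩
        have h3 := congrArg v (h2 f hf)
        rw [map_mul, map_mul] at h3
        exact h3
    rw [h1]
    exact (hv _).trans h

section fin

variable {G : Type*} [Group G] {x y : G}

theorem yx_pow (h : y * x = x ^ 3 * y) (c : ℕ) : y * x ^ c = x ^ (3 * c) * y := by
  induction c with
  | zero => simp
  | succ c ih =>
    rw [pow_succ, ← mul_assoc, ih, mul_assoc, h, ← mul_assoc, ← pow_add, Nat.mul_succ]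

theorem yx_pow' (h : y * x = x ^ 3 * y) (b c : ℕ) : y ^ b * x ^ c = x ^ (3 ^ b * c) * y ^ b := by
  induction b with
  | zero => simp
  | succ b ih =>
    rw [pow_succ', mul_assoc, ih, ← mul_assoc, yx_pow h, mul_assoc, ← pow_succ']
    congr 2
    ring

/-- The finite subgroup generated by `x` and `y`. -/
def qgrp (hx : x ^ 4 = 1) (hy : y ^ 4 = 1) (h : y * x = x ^ 3 * y) : Subgroup G where
  carrier := {g | ∃ a b : ℕ, g = x ^ a * y ^ b}
  one_mem' := ⟨0, 0, by simp⟩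
  mul_mem' := by
    rintro _ _ ⟨a, b, rfl⟩ ⟨c, d, rfl⟩
    refine ⟨a + 3 ^ b * c, b + d, ?_⟩
    rw [pow_add, pow_add, mul_assoc, mul_assoc]
    congr 1
    rw [← mul_assoc, yx_pow' h, mul_assoc]
  inv_mem' := by
    rintro _ ⟨a, b, rfl⟩
    refine ⟨3 ^ (3 * b) * (3 * a), 3 * b, ?_⟩
    rw [← yx_pow' h, _root_.mul_inv_rev]
    have h1 : ∀ (z : G) (n : ℕ), z ^ 4 = 1 → (z ^ n)⁻¹ = z ^ (3 * n) := by
      intro z n hz
      rw [inv_eq_iff_mul_eq_one, ← pow_add]
      have : n + 3 * n = 4 * n := by ring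
      rw [this, pow_mul, hz, one_pow]
    rw [h1 x a hx, h1 y b hy]

theorem qgrp_finite (hx : x ^ 4 = 1) (hy : y ^ 4 = 1) (h : y * x = x ^ 3 * y) :
    Finite (qgrp hx hy h) := by
  refine Finite.of_surjective (fun p : Fin 4 × Fin 4 =>
    (⟨x ^ (p.1 : ℕ) * y ^ (p.2 : ℕ), p.1, p.2, rfl⟩ : qgrp hx hy h)) ?_
  rintro ⟨_, a, b, rfl⟩
  refine ⟨(⟨a % 4, Nat.mod_lt _ (by norm_num)⟩, ⟨b % 4, Nat.mod_lt _ (by norm_num)⟩), ?_⟩
  apply Subtype.ext
  have h1 : ∀ (z : G) (n : ℕ), z ^ 4 = 1 → z ^ (n % 4) = z ^ n := by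
    intro z n hz
    conv_rhs => rw [← Nat.div_add_mod n 4, pow_add, pow_mul, hz, one_pow, one_mul]
  exact congrArg₂ (· * ·) (h1 x a hx) (h1 y b hy)

theorem qgrp_le (hx : x ^ 4 = 1) (hy : y ^ 4 = 1) (h : y * x = x ^ 3 * y) {M : Subgroup G}
    (h1 : x ∈ M) (h2 : y ∈ M) : qgrp hx hy h ≤ M := by
  rintro _ ⟨a, b, rfl⟩
  exact M.mul_mem (M.pow_mem h1 a) (M.pow_mem h2 b)

theorem mem_centralizer_qgrp (hx : x ^ 4 = 1) (hy : y ^ 4 = 1) (h : y * x = x ^ 3 * y) {g : G} :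
    g ∈ Subgroup.centralizer (qgrp hx hy h : Set G) ↔ x * g = g * x ∧ y * g = g * y := by
  rw [Subgroup.mem_centralizer_iff]
  constructor
  · intro h1
    exact ⟨h1 x ⟨1, 0, by simp⟩, h1 y ⟨0, 1, by simp⟩⟩
  · rintro ⟨h1, h2⟩ _ ⟨a, b, rfl⟩
    have h3 : Commute (x ^ a) g := Commute.pow_left h1 a
    have h4 : Commute (y ^ b) g := Commute.pow_left h2 b
    exact (Commute.mul_left h3 h4)

end fin

/-- A criterion. -/
theorem centIn_of {M : Subgroup (GL ι ℂ)} {x y : GL ι ℂ} (hx : x ^ 4 = 1) (hy : y ^ 4 = 1)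
    (h : y * x = x ^ 3 * y) (hxM : x ∈ M) (hyM : y ∈ M) {K : Subgroup (GL ι ℂ)}
    (hK : ∀ g, g ∈ K ↔ g ∈ M ∧ x * g = g * x ∧ y * g = g * y) {L : Subgroup (GL κ ℂ)}
    (hL : AlgIso K L) : CentIn L M := by
  refine ⟨qgrp hx hy h, qgrp_finite hx hy h, qgrp_le hx hy h hxM hyM, ?_⟩
  have h1 : M ⊓ Subgroup.centralizer (qgrp hx hy h : Set (GL ι ℂ)) = K := by
    ext g
    rw [hK, Subgroup.mem_inf, mem_centralizer_qgrp]
  rw [h1]
  exact hL

end Pool.Agent.H88.PW
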