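import Pool.Agent.H88.PW.Cls

/-!
# `P = W` for one sequence of groups
-/

set_option autoImplicit false

namespace Pool.Agent.H88.PW

/-- The family of the symplectic groups or the family of the orthogonal groups. -/
def IsUniversal (f : ℕ → Cl) : Prop := f = Cl.sp ∨ f = Cl.o

namespace Theory

variable (T : Theory)

/-- Properties which are stable under direct summands and tensor products. -/
structure Stable (p : Bif → Prop) : Prop where
  summand : ∀ {A C : Bif}, A.IsSummand C → p C → p A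
  tensor : ∀ {A B C : Bif}, C.IsTensor A B → p A → p B → p C

theorem stable_q1 : Stable Bif.Q1 := ⟨fun h hC => h.q1 hC, fun h hA hB => h.q1 hA hB⟩

theorem stable_oddInP : Stable Bif.OddInP :=
  ⟨fun h hC => h.oddInP hC, fun h hA hB => h.oddInP hA hB⟩

theorem stable_pinW : Stable (Bif.PinW 0) :=
  ⟨fun h hC => h.pinW hC, fun h hA hB => h.pinW hA hB⟩

theorem all_of_sp {p : Bif → Prop} (hp : Stable p) (h : ∀ X a, p (T.coh X (Cl.sp a))) :
    ∀ G X, p (T.coh X G) := by
  have h1 : ∀ {H G : Cl}, H.IsCentralizer G → (∀ X, p (T.coh X G)) → ∀ X, p (T.coh X H) := by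
    intro H G hHG h X
    obtain ⟨S, -, hS⟩ := T.centralizer X G H hHG
    exact hp.summand hS (h S)
  intro G
  induction G with
  | gl n => exact h1 (Cl.gl_sp n) fun X => h X n
  | o n => exact h1 (Cl.o_sp n) fun X => h X n
  | sp n => exact fun X => h X n
  | prod G H hG hH => exact fun X => hp.tensor (T.kunneth X G H) (hG X) (hH X)

theorem all_of_universal {p : Bif → Prop} (hp : Stable p) {f : ℕ → Cl} (hf : IsUniversal f)
    (h : ∀ X a, p (T.coh X (f a))) : ∀ X G, p (T.coh X G) := by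
  rcases hf with rfl | rfl
  · exact fun X G => all_of_sp T hp h G X
  · refine fun X G => all_of_sp T hp (fun X a => ?_) G X
    obtain ⟨S, -, hS⟩ := T.centralizer X _ _ (Cl.sp_o a)
    exact hp.summand hS (h S _)

theorem IsUniversal.family {f : ℕ → Cl} (hf : IsUniversal f) : Cl.IsFamily f := by
  rcases hf with rfl | rfl
  · exact Cl.split_sp
  · exact Cl.split_o

section seq

variable {T} {f : ℕ → Cl} (hf : Cl.IsFamily f) {N : Set ℕ} {e : ℕ → ℕ}
  (hN : ∀ A : ℕ, ∃ n ∈ N, A * (e n + 1) ≤ n)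

include hf hN

theorem seq_pinW (h : ∀ S, T.surf S → ∀ n ∈ N, (T.coh S (f n)).PinW (e n)) (X : T.Var)
    (a : ℕ) : (T.coh X (f a)).PinW 0 := by
  obtain ⟨n, hn, hle⟩ := hN (3 * a)
  have h1 : a * (2 * e n + 1) ≤ n := by nlinarith
  obtain ⟨S, hS, h2⟩ := T.pw_summand hf h1 X
  exact pinW_of_pw T X (f a) le_rfl (h2.pinW (h S hS n hn))

theorem seq_oddInP (h : ∀ S, T.surf S → ∀ n ∈ N, (T.coh S (f n)).WinP (e n)) (X : T.Var)
    (a : ℕ) : (T.coh X (f a)).OddInP := by
  obtain ⟨n, hn, hle⟩ := hN (3 * a)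
  have h1 : a * (2 * e n + 2 + 1) ≤ n := by nlinarith
  obtain ⟨S, hS, h2⟩ := T.pw_summand hf h1 X
  exact oddInP_of_pw T X (f a) le_rfl (h2.winP (h S hS n hn))

theorem seq_q1 (h : ∀ S, T.surf S → ∀ n ∈ N, (T.coh S (f n)).Q1) (X : T.Var)
    (a : ℕ) : (T.coh X (f a)).Q1 := by
  obtain ⟨n, hn, hle⟩ := hN a
  have h1 : a * (0 + 1) ≤ n := by nlinarith
  obtain ⟨S, hS, h2⟩ := T.pw_summand hf h1 X
  exact h2.q1 (h S hS n hn)

end seq

end Theory

end Pool.Agent.H88.PW
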