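import Pool.Agent.H88.PW.Grp

/-!
# Centralizers in the classical groups
-/

set_option autoImplicit false

open Matrix

namespace Pool.Agent.H88.PW

variable {ι κ μ ν : Type} [Fintype ι] [DecidableEq ι] [Fintype κ] [DecidableEq κ] [Fintype μ]
  [DecidableEq μ] [Fintype ν] [DecidableEq ν]

/-- block diagonal matrices -/
def blk : GL ι ℂ × GL κ ℂ →* GL (ι ⊕ κ) ℂ :=
  (Units.map blockHom).comp MulEquiv.prodUnits.symm.toMonoidHom

theorem blk_coe (p : GL ι ℂ × GL κ ℂ) :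
    ((blk p : GL (ι ⊕ κ) ℂ) : Matrix (ι ⊕ κ) (ι ⊕ κ) ℂ) = fromBlocks p.1 0 0 p.2 := rfl

theorem blk_inv_coe (p : GL ι ℂ × GL κ ℂ) :
    (((blk p)⁻¹ : GL (ι ⊕ κ) ℂ) : Matrix (ι ⊕ κ) (ι ⊕ κ) ℂ) =
      fromBlocks ((p.1⁻¹ : GL ι ℂ) : Matrix ι ι ℂ) 0 0 ((p.2⁻¹ : GL κ ℂ) : Matrix κ κ ℂ) := by
  rw [← map_inv]
  rfl

theorem blk_inj {p q : GL ι ℂ × GL κ ℂ} (h : blk p = blk q) : p = q := by
  have h1 := congrArg (fun g : GL (ι ⊕ κ) ℂ => (g : Matrix (ι ⊕ κ) (ι ⊕ κ) ℂ)) h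
  simp only [blk_coe] at h1
  rw [fromBlocks_inj] at h1
  exact Prod.ext (Units.ext h1.1) (Units.ext h1.2.2.2)

/-- scalar matrices -/
def scal (z : ℂˣ) : GL ι ℂ := Units.map (Matrix.scalar ι).toMonoidHom z

theorem scal_coe (z : ℂˣ) : ((scal z : GL ι ℂ) : Matrix ι ι ℂ) = (z : ℂ) • 1 := by
  change Matrix.scalar ι (z : ℂ) = _
  rw [Matrix.scalar_apply, ← Matrix.smul_one_eq_diagonal]

/-- the matrices `diag (z, w)` -/
def sg (z w : ℂˣ) : GL (ι ⊕ κ) ℂ := blk (scal z, scal w)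

theorem sg_coe (z w : ℂˣ) : ((sg z w : GL (ι ⊕ κ) ℂ) : Matrix (ι ⊕ κ) (ι ⊕ κ) ℂ) =
    fromBlocks ((z : ℂ) • 1) 0 0 ((w : ℂ) • 1) := by
  rw [sg, blk_coe]
  simp only [scal_coe]

theorem sg_pow (z w : ℂˣ) (n : ℕ) : (sg z w : GL (ι ⊕ κ) ℂ) ^ n = sg (z ^ n) (w ^ n) := by
  rw [sg, ← map_pow]
  simp only [Prod.pow_mk, scal, ← map_pow]
  rfl

theorem sg_one : (sg 1 1 : GL (ι ⊕ κ) ℂ) = 1 := by
  simp only [sg, scal, map_one]
  exact map_one blk

theorem offdiag {z w : ℂˣ} (h : (z : ℂ) ≠ w) {g : GL (ι ⊕ κ) ℂ}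
    (hg : sg z w * g = g * sg z w) : ∃ (A : Matrix ι ι ℂ) (D : Matrix κ κ ℂ),
      (g : Matrix (ι ⊕ κ) (ι ⊕ κ) ℂ) = fromBlocks A 0 0 D := by
  have h1 := congrArg (fun g : GL (ι ⊕ κ) ℂ => (g : Matrix (ι ⊕ κ) (ι ⊕ κ) ℂ)) hg
  simp only [Units.val_mul, sg_coe] at h1
  rw [← fromBlocks_toBlocks (g : Matrix (ι ⊕ κ) (ι ⊕ κ) ℂ)] at h1
  simp only [fromBlocks_multiply, Matrix.smul_mul, Matrix.mul_smul, Matrix.one_mul,
    Matrix.mul_one, Matrix.zero_mul, Matrix.mul_zero, add_zero, zero_add] at h1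
  rw [fromBlocks_inj] at h1
  obtain ⟨-, h2, h3, -⟩ := h1
  have hzw : (z : ℂ) - w ≠ 0 := sub_ne_zero.2 h
  have hwz : (w : ℂ) - z ≠ 0 := sub_ne_zero.2 (Ne.symm h)
  have h4 : (g : Matrix (ι ⊕ κ) (ι ⊕ κ) ℂ).toBlocks₁₂ = 0 := by
    have : ((z : ℂ) - w) • (g : Matrix (ι ⊕ κ) (ι ⊕ κ) ℂ).toBlocks₁₂ = 0 := by
      rw [sub_smul, h2, sub_self]
    exact (smul_eq_zero.1 this).resolve_left hzw
  have h5 : (g : Matrix (ι ⊕ κ) (ι ⊕ κ) ℂ).toBlocks₂₁ = 0 := by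
    have : ((w : ℂ) - z) • (g : Matrix (ι ⊕ κ) (ι ⊕ κ) ℂ).toBlocks₂₁ = 0 := by
      rw [sub_smul, h3, sub_self]
    exact (smul_eq_zero.1 this).resolve_left hwz
  refine ⟨(g : Matrix (ι ⊕ κ) (ι ⊕ κ) ℂ).toBlocks₁₁,
    (g : Matrix (ι ⊕ κ) (ι ⊕ κ) ℂ).toBlocks₂₂, ?_⟩
  conv_lhs => rw [← fromBlocks_toBlocks (g : Matrix (ι ⊕ κ) (ι ⊕ κ) ℂ), h4, h5]

/-- The matrices which commute with `diag (z, w)`. -/
theorem exists_blk {z w : ℂˣ} (h : (z : ℂ) ≠ w) {g : GL (ι ⊕ κ) ℂ}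
    (hg : sg z w * g = g * sg z w) : ∃ p : GL ι ℂ × GL κ ℂ, g = blk p := by
  obtain ⟨A, D, h1⟩ := offdiag h hg
  have hg' : sg z w * g⁻¹ = g⁻¹ * sg z w := by
    have : Commute (sg z w) g := hg
    exact this.inv_right
  obtain ⟨A', D', h2⟩ := offdiag h hg'
  have h3 : (g : Matrix (ι ⊕ κ) (ι ⊕ κ) ℂ) * ((g⁻¹ : GL (ι ⊕ κ) ℂ) : Matrix _ _ ℂ) = 1 := by
    rw [← Units.val_mul, mul_inv_cancel, Units.val_one]
  have h4 : ((g⁻¹ : GL (ι ⊕ κ) ℂ) : Matrix _ _ ℂ) * (g : Matrix (ι ⊕ κ) (ι ⊕ κ) ℂ) = 1 := by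
    rw [← Units.val_mul, inv_mul_cancel, Units.val_one]
  rw [h1, h2, fromBlocks_multiply, ← fromBlocks_one, fromBlocks_inj] at h3 h4
  simp only [Matrix.mul_zero, add_zero, Matrix.zero_mul, zero_add] at h3 h4
  refine ⟨(⟨A, A', h3.1, h4.1⟩, ⟨D, D', h3.2.2.2, h4.2.2.2⟩), Units.ext ?_⟩
  rw [h1]
  rfl

theorem sg_comm (z w : ℂˣ) (p : GL ι ℂ × GL κ ℂ) : sg z w * blk p = blk p * sg z w := by
  apply Units.ext
  rw [Units.val_mul, Units.val_mul, sg_coe, blk_coe, fromBlocks_multiply, fromBlocks_multiply]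
  simp only [Matrix.smul_mul, Matrix.mul_smul, Matrix.one_mul,
    Matrix.mul_one, Matrix.zero_mul, Matrix.mul_zero, add_zero, smul_zero]

theorem mem_isom {B : Matrix ι ι ℂ} {g : GL ι ℂ} :
    g ∈ isom B ↔ (g : Matrix ι ι ℂ)ᵀ * B * g = B := Iff.rfl

theorem isom_zero : isom (0 : Matrix ι ι ℂ) = ⊤ := by
  rw [eq_top_iff]
  intro g _
  rw [mem_isom, Matrix.mul_zero, Matrix.zero_mul]

theorem mem_blockProd {K : Subgroup (GL ι ℂ)} {L : Subgroup (GL κ ℂ)} {g : GL (ι ⊕ κ) ℂ} :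
    g ∈ blockProd K L ↔ ∃ a ∈ K, ∃ b ∈ L, g = blk (a, b) := by
  constructor
  · rintro ⟨⟨a, b⟩, h, rfl⟩
    exact ⟨a, h.1, b, h.2, rfl⟩
  · rintro ⟨a, ha, b, hb, rfl⟩
    exact ⟨(a, b), ⟨ha, hb⟩, rfl⟩

theorem blk_mem_isom {B : Matrix ι ι ℂ} {B' : Matrix κ κ ℂ} {a : GL ι ℂ} {b : GL κ ℂ} :
    blk (a, b) ∈ isom (fromBlocks B 0 0 B') ↔ a ∈ isom B ∧ b ∈ isom B' := by
  rw [mem_isom, mem_isom, mem_isom, blk_coe, fromBlocks_transpose, fromBlocks_multiply,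
    fromBlocks_multiply, fromBlocks_inj]
  simp only [Matrix.mul_zero, add_zero, Matrix.zero_mul, zero_add, Matrix.transpose_zero,
    and_true, true_and]

/-- **Block diagonal matrices.** -/
theorem centIn_split (B : Matrix ι ι ℂ) (B' : Matrix κ κ ℂ) :
    CentIn (blockProd (isom B) (isom B')) (isom (fromBlocks B 0 0 B')) := by
  have hx : (sg 1 (-1) : GL (ι ⊕ κ) ℂ) ^ 4 = 1 := by
    rw [sg_pow, one_pow, Even.neg_one_pow (by decide), sg_one]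
  have h11 : ((1 : ℂˣ) : ℂ) ≠ ((-1 : ℂˣ) : ℂ) := by
    rw [Units.val_one, Units.val_neg, Units.val_one]
    norm_num
  have hx3 : (sg 1 (-1) : GL (ι ⊕ κ) ℂ) ^ 3 = sg 1 (-1) := by
    rw [sg_pow, one_pow, Odd.neg_one_pow (by decide)]
  refine centIn_of (x := 1) (y := sg 1 (-1)) (one_pow 4) hx ?_ (Subgroup.one_mem _) ?_ ?_
    (AlgIso.refl _)
  · rw [one_pow, one_mul, mul_one]
  · rw [sg, blk_mem_isom, mem_isom, mem_isom, scal_coe, scal_coe]
    simp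
  · intro g
    constructor
    · intro hg
      obtain ⟨a, ha, b, hb, rfl⟩ := mem_blockProd.1 hg
      exact ⟨blk_mem_isom.2 ⟨ha, hb⟩, by rw [one_mul, mul_one], sg_comm _ _ _⟩
    · rintro ⟨h1, -, h2⟩
      obtain ⟨⟨a, b⟩, rfl⟩ := exists_blk h11 h2
      obtain ⟨ha, hb⟩ := blk_mem_isom.1 h1
      exact mem_blockProd.2 ⟨a, ha, b, hb, rfl⟩

/-- the matrix of order four which exchanges the two blocks -/
def flipU : GL (ι ⊕ ι) ℂ where
  val := fromBlocks 0 1 (-1) 0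
  inv := fromBlocks 0 (-1) 1 0
  val_inv := by simp [fromBlocks_multiply, fromBlocks_one]
  inv_val := by simp [fromBlocks_multiply, fromBlocks_one]

theorem flip_coe : ((flipU : GL (ι ⊕ ι) ℂ) : Matrix (ι ⊕ ι) (ι ⊕ ι) ℂ) =
    fromBlocks 0 1 (-1) 0 := rfl

/-- the unit `i` -/
noncomputable def uI : ℂˣ := Units.mk0 Complex.I Complex.I_ne_zero

theorem uI_coe : (uI : ℂ) = Complex.I := rfl

theorem uI_ne : (uI : ℂ) ≠ ((-uI : ℂˣ) : ℂ) := by
  rw [Units.val_neg, uI_coe]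
  intro h
  have h1 : (2 : ℂ) * Complex.I = 0 := by linear_combination h
  rcases mul_eq_zero.1 h1 with h2 | h2
  · norm_num at h2
  · exact Complex.I_ne_zero h2

theorem uI_sq : uI ^ 2 = -1 := by
  apply Units.ext
  rw [Units.val_pow_eq_pow_val, uI_coe, Complex.I_sq, Units.val_neg, Units.val_one]

theorem uI_four : uI ^ 4 = 1 := by
  have : uI ^ 4 = (uI ^ 2) ^ 2 := by rw [← pow_mul]
  rw [this, uI_sq, neg_one_sq]

theorem sgI_four : (sg uI (-uI) : GL (ι ⊕ ι) ℂ) ^ 4 = 1 := by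
  rw [sg_pow, Even.neg_pow (by decide), uI_four, sg_one]

theorem flip_sq : (flipU : GL (ι ⊕ ι) ℂ) ^ 2 = sg (-1) (-1) := by
  apply Units.ext
  rw [pow_two, Units.val_mul, flip_coe, sg_coe, fromBlocks_multiply]
  simp

theorem flip_four : (flipU : GL (ι ⊕ ι) ℂ) ^ 4 = 1 := by
  have : (flipU : GL (ι ⊕ ι) ℂ) ^ 4 = (flipU ^ 2) ^ 2 := by rw [← pow_mul]
  rw [this, flip_sq, sg_pow, neg_one_sq, sg_one]

theorem flip_sg : (flipU : GL (ι ⊕ ι) ℂ) * sg uI (-uI) = sg uI (-uI) ^ 3 * flipU := by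
  apply Units.ext
  have h1 : uI ^ 3 = -uI := by
    rw [pow_succ, uI_sq, neg_one_mul]
  have h2 : (-uI) ^ 3 = uI := by
    rw [Odd.neg_pow (by decide), h1, neg_neg]
  rw [sg_pow, h1, h2, Units.val_mul, Units.val_mul, flip_coe, sg_coe, sg_coe,
    fromBlocks_multiply, fromBlocks_multiply]
  simp

/-- `A` goes to `diag (A, A)`. -/
def dbl : GL ι ℂ →* GL (ι ⊕ ι) ℂ := blk.comp ((MonoidHom.id _).prod (MonoidHom.id _))

theorem dbl_apply (A : GL ι ℂ) : dbl A = blk (A, A) := rfl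

theorem map_algIso_of_blocks {u : GL ι ℂ →* GL (ι ⊕ ι) ℂ}
    (hu : ∀ A, (u A : Matrix (ι ⊕ ι) (ι ⊕ ι) ℂ).toBlocks₁₁ = A) (L : Subgroup (GL ι ℂ))
    (h1 : ∀ i j, (fun A : L => (u A) i j) ∈ regular L) : AlgIso (L.map u) L := by
  refine algIso_of (w := fun g => (g : Matrix (ι ⊕ ι) (ι ⊕ ι) ℂ).toBlocks₁₁) hu L h1 ?_
  intro i j
  exact entry_mem (L.map u) (Sum.inl i) (Sum.inl j)

/-- **Matrices which commute with a quaternion group.** -/
theorem centIn_dbl (B : Matrix ι ι ℂ) : CentIn (isom B) (isom (fromBlocks 0 B (-B) 0)) := by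
  have hL : AlgIso ((isom B).map dbl) (isom B) := by
    refine map_algIso_of_blocks (fun A => rfl) _ ?_
    intro i j
    rcases i with i | i <;> rcases j with j | j
    · exact entry_mem (isom B) i j
    · exact const_mem _ 0
    · exact const_mem _ 0
    · exact entry_mem (isom B) i j
  refine centIn_of sgI_four flip_four flip_sg ?_ ?_ ?_ hL
  · rw [mem_isom, sg_coe, fromBlocks_transpose, fromBlocks_multiply, fromBlocks_multiply,
      fromBlocks_inj, Units.val_neg, uI_coe]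
    simp [smul_smul]
  · rw [mem_isom, flip_coe, fromBlocks_transpose, fromBlocks_multiply, fromBlocks_multiply,
      fromBlocks_inj]
    simp
  · intro g
    have key : ∀ A : GL ι ℂ, dbl A ∈ isom (fromBlocks 0 B (-B) 0) ↔ A ∈ isom B := by
      intro A
      rw [dbl_apply, mem_isom, mem_isom, blk_coe, fromBlocks_transpose, fromBlocks_multiply,
        fromBlocks_multiply, fromBlocks_inj]
      simp
    constructor
    · rintro ⟨A, hA, rfl⟩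
      refine ⟨(key A).2 hA, sg_comm _ _ _, ?_⟩
      apply Units.ext
      rw [Units.val_mul, Units.val_mul, dbl_apply, blk_coe, flip_coe, fromBlocks_multiply,
        fromBlocks_multiply]
      simp
    · rintro ⟨h1, h2, h3⟩
      obtain ⟨⟨A, D⟩, rfl⟩ := exists_blk uI_ne h2
      have h4 := congrArg (fun g : GL (ι ⊕ ι) ℂ => (g : Matrix (ι ⊕ ι) (ι ⊕ ι) ℂ)) h3
      simp only [Units.val_mul, blk_coe, flip_coe, fromBlocks_multiply] at h4
      rw [fromBlocks_inj] at h4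
      have h5 : D = A := by
        apply Units.ext
        have := h4.2.1
        simpa using this
      subst h5
      exact ⟨D, (key D).1 h1, rfl⟩

/-- the inverse transpose -/
def invT (A : GL ι ℂ) : GL ι ℂ where
  val := ((A⁻¹ : GL ι ℂ) : Matrix ι ι ℂ)ᵀ
  inv := (A : Matrix ι ι ℂ)ᵀ
  val_inv := by
    rw [← Matrix.transpose_mul, ← Units.val_mul, mul_inv_cancel, Units.val_one,
      Matrix.transpose_one]
  inv_val := by
    rw [← Matrix.transpose_mul, ← Units.val_mul, inv_mul_cancel, Units.val_one,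
      Matrix.transpose_one]

/-- `A` goes to `diag (A, (Aᵀ)⁻¹)`. -/
def lag : GL ι ℂ →* GL (ι ⊕ ι) ℂ where
  toFun A := blk ((A, invT A) : GL ι ℂ × GL ι ℂ)
  map_one' := by
    apply Units.ext
    rw [blk_coe, invT]
    simp
  map_mul' A B := by
    rw [← map_mul]
    congr 1
    refine Prod.ext rfl (Units.ext ?_)
    change (((A * B)⁻¹ : GL ι ℂ) : Matrix ι ι ℂ)ᵀ = ((A⁻¹ : GL ι ℂ) : Matrix ι ι ℂ)ᵀ *
      ((B⁻¹ : GL ι ℂ) : Matrix ι ι ℂ)ᵀ
    rw [_root_.mul_inv_rev, Units.val_mul, Matrix.transpose_mul]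

theorem lag_apply (A : GL ι ℂ) : lag A = blk (A, invT A) := rfl

/-- **The general linear group in the symplectic group.** -/
theorem centIn_lag : CentIn (⊤ : Subgroup (GL ι ℂ)) (isom (fromBlocks 0 (1 : Matrix ι ι ℂ) (-1) 0)) := by
  have hL : AlgIso ((⊤ : Subgroup (GL ι ℂ)).map lag) (⊤ : Subgroup (GL ι ℂ)) := by
    refine map_algIso_of_blocks (fun A => rfl) _ ?_
    intro i j
    rcases i with i | i <;> rcases j with j | j
    · exact entry_mem ⊤ i j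
    · exact const_mem _ 0
    · exact const_mem _ 0
    · exact inv_entry_mem ⊤ j i
  have key : ∀ A D : GL ι ℂ, blk (A, D) ∈ isom (fromBlocks 0 (1 : Matrix ι ι ℂ) (-1) 0) ↔
      D = invT A := by
    intro A D
    rw [mem_isom, blk_coe, fromBlocks_transpose, fromBlocks_multiply, fromBlocks_multiply,
      fromBlocks_inj]
    simp only [Matrix.transpose_zero, Matrix.mul_zero, Matrix.zero_mul, add_zero, zero_add,
      Matrix.mul_one, Matrix.mul_neg, Matrix.neg_mul, neg_inj, and_true, true_and, neg_zero]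
    constructor
    · rintro ⟨h1, -⟩
      have h2 : invT A * invT A⁻¹ = 1 := by
        apply Units.ext
        change ((A⁻¹ : GL ι ℂ) : Matrix ι ι ℂ)ᵀ * (((A⁻¹)⁻¹ : GL ι ℂ) : Matrix ι ι ℂ)ᵀ = 1
        rw [inv_inv, ← Matrix.transpose_mul, ← Units.val_mul, mul_inv_cancel, Units.val_one,
          Matrix.transpose_one]
      have h3 : (invT A⁻¹ : GL ι ℂ) * D = 1 := by
        apply Units.ext
        change (((A⁻¹)⁻¹ : GL ι ℂ) : Matrix ι ι ℂ)ᵀ * (D : Matrix ι ι ℂ) = 1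
        rw [inv_inv]
        exact h1
      calc D = (invT A * invT A⁻¹) * D := by rw [h2, one_mul]
        _ = invT A := by rw [mul_assoc, h3, mul_one]
    · rintro rfl
      have h1 : (A : Matrix ι ι ℂ)ᵀ * ((invT A : GL ι ℂ) : Matrix ι ι ℂ) = 1 := (invT A).inv_mul
      have h2 : ((invT A : GL ι ℂ) : Matrix ι ι ℂ)ᵀ * (A : Matrix ι ι ℂ) = 1 := by
        change (((A⁻¹ : GL ι ℂ) : Matrix ι ι ℂ)ᵀ)ᵀ * (A : Matrix ι ι ℂ) = 1
        rw [Matrix.transpose_transpose, ← Units.val_mul, inv_mul_cancel, Units.val_one]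
      exact ⟨h1, h2⟩
  refine centIn_of (x := 1) (y := sg uI (-uI)) (one_pow 4) sgI_four ?_
    (Subgroup.one_mem _) ?_ ?_ hL
  · rw [one_pow, one_mul, mul_one]
  · rw [mem_isom, sg_coe, fromBlocks_transpose, fromBlocks_multiply, fromBlocks_multiply,
      fromBlocks_inj, Units.val_neg, uI_coe]
    simp [smul_smul]
  · intro g
    constructor
    · rintro ⟨A, hA, rfl⟩
      exact ⟨(key _ _).2 rfl, by rw [one_mul, mul_one], sg_comm _ _ _⟩
    · rintro ⟨h1, -, h2⟩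
      obtain ⟨⟨A, D⟩, rfl⟩ := exists_blk uI_ne h2
      have h3 := (key A D).1 h1
      subst h3
      exact ⟨A, Subgroup.mem_top _, rfl⟩

end Pool.Agent.H88.PW
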