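import Pool.Agent.H88.PW.Mat

/-!
# Change of coordinates, and products
-/

set_option autoImplicit false

open Matrix

namespace Pool.Agent.H88.PW

variable {ι κ μ ν : Type} [Fintype ι] [DecidableEq ι] [Fintype κ] [DecidableEq κ] [Fintype μ]
  [DecidableEq μ] [Fintype ν] [DecidableEq ν]

/-- renaming the indices -/
def rx (e : ι ≃ κ) : GL ι ℂ ≃* GL κ ℂ :=
  Units.mapEquiv (Matrix.reindexAlgEquiv ℂ ℂ e).toMulEquiv

theorem rx_coe (e : ι ≃ κ) (g : GL ι ℂ) : ((rx e g : GL κ ℂ) : Matrix κ κ ℂ) =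
    (g : Matrix ι ι ℂ).submatrix e.symm e.symm := rfl

theorem rx_algIso (e : ι ≃ κ) (K : Subgroup (GL ι ℂ)) :
    AlgIso (K.map (rx e).toMonoidHom) K := by
  refine algIso_of (w := fun g => (g : Matrix κ κ ℂ).submatrix e e) ?_ K ?_ ?_
  · intro A
    change ((A : Matrix ι ι ℂ).submatrix e.symm e.symm).submatrix e e = A
    rw [Matrix.submatrix_submatrix]
    simp
  · intro i j
    exact entry_mem K (e.symm i) (e.symm j)
  · intro i j
    exact entry_mem _ (e i) (e j)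

theorem rx_mem_isom (e : ι ≃ κ) {B : Matrix ι ι ℂ} {g : GL ι ℂ} :
    rx e g ∈ isom (B.submatrix e.symm e.symm) ↔ g ∈ isom B := by
  rw [mem_isom, mem_isom, rx_coe, Matrix.transpose_submatrix, Matrix.submatrix_mul_equiv,
    Matrix.submatrix_mul_equiv]
  constructor
  · intro h
    have h1 := congrArg (fun M : Matrix κ κ ℂ => M.submatrix e e) h
    simpa [Matrix.submatrix_submatrix] using h1
  · intro h
    rw [h]

theorem rx_isom (e : ι ≃ κ) (B : Matrix ι ι ℂ) :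
    (isom B).map (rx e).toMonoidHom = isom (B.submatrix e.symm e.symm) := by
  ext g
  constructor
  · rintro ⟨h, hh, rfl⟩
    exact (rx_mem_isom e).2 hh
  · intro hg
    obtain ⟨h, rfl⟩ := (rx e).surjective g
    exact ⟨h, (rx_mem_isom e).1 hg, rfl⟩

theorem centIn_rx {L : Subgroup (GL μ ℂ)} {B : Matrix ι ι ℂ} (h : CentIn L (isom B))
    (e : ι ≃ κ) {B' : Matrix κ κ ℂ} (hB : B.submatrix e.symm e.symm = B') :
    CentIn L (isom B') := by
  have h1 := h.transport (rx e) (rx_algIso e)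
  rwa [rx_isom, hB] at h1

theorem cj_algIso (S : GL ι ℂ) (K : Subgroup (GL ι ℂ)) :
    AlgIso (K.map (MulAut.conj S).toMonoidHom) K := by
  have key : ∀ (T T' : Matrix ι ι ℂ) (K' : Subgroup (GL ι ℂ)) (i j : ι),
      (fun g : K' => (T * (g : GL ι ℂ) * T' : Matrix ι ι ℂ) i j) ∈ regular K' := by
    intro T T' K' i j
    have h1 : (fun g : K' => (T * (g : GL ι ℂ) * T' : Matrix ι ι ℂ) i j) =
        ∑ k, (∑ l, (fun _ : K' => T i l) * (fun g : K' => (g : GL ι ℂ) l k)) *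
          (fun _ : K' => T' k j) := by
      funext g
      rw [Matrix.mul_apply]
      simp only [Matrix.mul_apply, Finset.sum_apply, Pi.mul_apply]
    rw [h1]
    refine Subalgebra.sum_mem _ fun k _ => Subalgebra.mul_mem _ (Subalgebra.sum_mem _ fun l _ =>
      Subalgebra.mul_mem _ (const_mem _ _) (entry_mem _ _ _)) (const_mem _ _)
  refine algIso_of (w := fun g => ((S⁻¹ : GL ι ℂ) : Matrix ι ι ℂ) * (g : Matrix ι ι ℂ) *
    (S : Matrix ι ι ℂ)) ?_ K ?_ ?_
  · intro A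
    change ((S⁻¹ : GL ι ℂ) : Matrix ι ι ℂ) * ((S * A * S⁻¹ : GL ι ℂ) : Matrix ι ι ℂ) * S = A
    rw [← Units.val_mul, ← Units.val_mul]
    congr 1
    group
  · intro i j
    exact key _ _ K i j
  · intro i j
    exact key _ _ _ i j

theorem cj_isom {S : GL ι ℂ} {B B' : Matrix ι ι ℂ}
    (h : (S : Matrix ι ι ℂ)ᵀ * B' * S = B) :
    (isom B).map (MulAut.conj S).toMonoidHom = isom B' := by
  have hS : (S : Matrix ι ι ℂ) * ((S⁻¹ : GL ι ℂ) : Matrix ι ι ℂ) = 1 := by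
    rw [← Units.val_mul, mul_inv_cancel, Units.val_one]
  have hS' : ((S⁻¹ : GL ι ℂ) : Matrix ι ι ℂ) * (S : Matrix ι ι ℂ) = 1 := by
    rw [← Units.val_mul, inv_mul_cancel, Units.val_one]
  have hT : ((S⁻¹ : GL ι ℂ) : Matrix ι ι ℂ)ᵀ * (S : Matrix ι ι ℂ)ᵀ = 1 := by
    rw [← Matrix.transpose_mul, hS, Matrix.transpose_one]
  have hT' : (S : Matrix ι ι ℂ)ᵀ * ((S⁻¹ : GL ι ℂ) : Matrix ι ι ℂ)ᵀ = 1 := by
    rw [← Matrix.transpose_mul, hS', Matrix.transpose_one]
  have key : ∀ g : GL ι ℂ, S * g * S⁻¹ ∈ isom B' ↔ g ∈ isom B := by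
    intro g
    rw [mem_isom, mem_isom]
    have e1 : ((S * g * S⁻¹ : GL ι ℂ) : Matrix ι ι ℂ)ᵀ * B' * ((S * g * S⁻¹ : GL ι ℂ) :
        Matrix ι ι ℂ) = ((S⁻¹ : GL ι ℂ) : Matrix ι ι ℂ)ᵀ * ((g : Matrix ι ι ℂ)ᵀ * B * g) *
          ((S⁻¹ : GL ι ℂ) : Matrix ι ι ℂ) := by
      rw [Units.val_mul, Units.val_mul, Matrix.transpose_mul, Matrix.transpose_mul, ← h]
      simp only [Matrix.mul_assoc]
    have e2 : B' = ((S⁻¹ : GL ι ℂ) : Matrix ι ι ℂ)ᵀ * B * ((S⁻¹ : GL ι ℂ) : Matrix ι ι ℂ) := by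
      rw [← h]
      calc B' = (((S⁻¹ : GL ι ℂ) : Matrix ι ι ℂ)ᵀ * (S : Matrix ι ι ℂ)ᵀ) * B' *
            ((S : Matrix ι ι ℂ) * ((S⁻¹ : GL ι ℂ) : Matrix ι ι ℂ)) := by
            rw [hT, hS, Matrix.one_mul, Matrix.mul_one]
        _ = _ := by simp only [Matrix.mul_assoc]
    rw [e1]
    conv_lhs => rw [e2]
    constructor
    · intro h1
      have h2 := congrArg (fun M => (S : Matrix ι ι ℂ)ᵀ * M * (S : Matrix ι ι ℂ)) h1
      have h3 : ∀ M : Matrix ι ι ℂ, (S : Matrix ι ι ℂ)ᵀ * (((S⁻¹ : GL ι ℂ) : Matrix ι ι ℂ)ᵀ * M *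
          ((S⁻¹ : GL ι ℂ) : Matrix ι ι ℂ)) * (S : Matrix ι ι ℂ) = M := by
        intro M
        calc _ = ((S : Matrix ι ι ℂ)ᵀ * ((S⁻¹ : GL ι ℂ) : Matrix ι ι ℂ)ᵀ) * M *
              (((S⁻¹ : GL ι ℂ) : Matrix ι ι ℂ) * (S : Matrix ι ι ℂ)) := by
              simp only [Matrix.mul_assoc]
          _ = M := by rw [hT', hS', Matrix.one_mul, Matrix.mul_one]
      simp only [h3] at h2
      exact h2
    · intro h1
      rw [h1]
  ext g
  constructor
  · rintro ⟨x, hx, rfl⟩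
    exact (key x).2 hx
  · intro hg
    obtain ⟨x, rfl⟩ := (MulAut.conj S).surjective g
    exact ⟨x, (key x).1 hg, rfl⟩

theorem centIn_cj {L : Subgroup (GL μ ℂ)} {B : Matrix ι ι ℂ} (h : CentIn L (isom B))
    {S : GL ι ℂ} {B' : Matrix ι ι ℂ} (hB : (S : Matrix ι ι ℂ)ᵀ * B' * S = B) :
    CentIn L (isom B') := by
  have h1 := h.transport (MulAut.conj S) (cj_algIso S)
  rwa [cj_isom hB] at h1

section prod

theorem coe_blk_inl (a : GL ι ℂ) (b : GL κ ℂ) (i j : ι) :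
    (blk (a, b) : Matrix (ι ⊕ κ) (ι ⊕ κ) ℂ) (Sum.inl i) (Sum.inl j) = a i j := rfl

/-- the second block -/
noncomputable def snd' (A : Subgroup (GL ι ℂ)) (K : Subgroup (GL κ ℂ)) : blockProd A K →* K where
  toFun g := ⟨(mem_blockProd.1 g.2).choose_spec.2.choose,
    (mem_blockProd.1 g.2).choose_spec.2.choose_spec.1⟩
  map_one' := by
    apply Subtype.ext
    have h := (mem_blockProd.1 (1 : blockProd A K).2).choose_spec.2.choose_spec.2
    have h1 : (((1 : blockProd A K) : GL (ι ⊕ κ) ℂ)) = blk (1, 1) := (map_one blk).symm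
    exact (congrArg Prod.snd (blk_inj (h1.symm.trans h))).symm
  map_mul' g g' := by
    apply Subtype.ext
    have h := (mem_blockProd.1 (g * g').2).choose_spec.2.choose_spec.2
    have h1 := (mem_blockProd.1 g.2).choose_spec.2.choose_spec.2
    have h2 := (mem_blockProd.1 g'.2).choose_spec.2.choose_spec.2
    have h3 := (map_mul blk _ _).trans ((congrArg₂ (· * ·) h1 h2).symm.trans h)
    exact (congrArg Prod.snd (blk_inj h3)).symm

theorem snd'_spec (A : Subgroup (GL ι ℂ)) (K : Subgroup (GL κ ℂ)) (g : blockProd A K) {a : GL ι ℂ}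
    {b : GL κ ℂ} (h : (g : GL (ι ⊕ κ) ℂ) = blk (a, b)) : (snd' A K g : GL κ ℂ) = b := by
  have h1 := (mem_blockProd.1 g.2).choose_spec.2.choose_spec.2
  exact (congrArg Prod.snd (blk_inj (h.symm.trans h1))).symm

/-- the first block -/
noncomputable def fst' (A : Subgroup (GL ι ℂ)) (K : Subgroup (GL κ ℂ)) (g : blockProd A K) : A :=
  ⟨(mem_blockProd.1 g.2).choose, (mem_blockProd.1 g.2).choose_spec.1⟩

theorem eq_blk (A : Subgroup (GL ι ℂ)) (K : Subgroup (GL κ ℂ)) (g : blockProd A K) :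
    (g : GL (ι ⊕ κ) ℂ) = blk (((fst' A K g : A) : GL ι ℂ), ((snd' A K g : K) : GL κ ℂ)) :=
  (mem_blockProd.1 g.2).choose_spec.2.choose_spec.2

/-- the map on the second block -/
noncomputable def bmap (A : Subgroup (GL ι ℂ)) {K : Subgroup (GL κ ℂ)} {L : Subgroup (GL μ ℂ)}
    (e : K →* L) : blockProd A K →* blockProd A L where
  toFun g := ⟨blk (((fst' A K g : A) : GL ι ℂ), ((e (snd' A K g) : L) : GL μ ℂ)),
    mem_blockProd.2 ⟨_, (fst' A K g).2, _, (e (snd' A K g)).2, rfl⟩⟩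
  map_one' := by
    apply Subtype.ext
    have h1 := eq_blk A K 1
    have h2 : (((1 : blockProd A K) : GL (ι ⊕ κ) ℂ)) = blk (1, 1) := (map_one blk).symm
    have h3 := congrArg Prod.fst (blk_inj (h2.symm.trans h1))
    change blk (((fst' A K 1 : A) : GL ι ℂ), ((e (snd' A K 1) : L) : GL μ ℂ)) = 1
    rw [map_one, map_one, ← map_one (blk : GL ι ℂ × GL μ ℂ →* _)]
    exact congrArg blk (Prod.ext h3.symm rfl)
  map_mul' g g' := by
    apply Subtype.ext
    have h := (map_mul blk _ _).trans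
      ((congrArg₂ (· * ·) (eq_blk A K g) (eq_blk A K g')).symm.trans (eq_blk A K (g * g')))
    have h3 := congrArg Prod.fst (blk_inj h)
    refine Eq.trans ?_ (map_mul blk _ _)
    refine congrArg blk (Prod.ext h3.symm ?_)
    have h4 : e (snd' A K (g * g')) = e (snd' A K g) * e (snd' A K g') := by
      rw [map_mul, map_mul]
    exact congrArg Subtype.val h4

theorem bmap_regular (A : Subgroup (GL ι ℂ)) {K : Subgroup (GL κ ℂ)} {L : Subgroup (GL μ ℂ)}
    (e : K →* L) (h : ∀ f ∈ regular L, f ∘ e ∈ regular K) {f : blockProd A L → ℂ}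
    (hf : f ∈ regular (blockProd A L)) : f ∘ bmap A e ∈ regular (blockProd A K) := by
  refine comp_mem (bmap A e) ?_ hf
  intro i j
  rcases i with i | i <;> rcases j with j | j
  · have h1 : (fun g : blockProd A K => ((bmap A e g : blockProd A L) : GL (ι ⊕ μ) ℂ)
        (Sum.inl i) (Sum.inl j)) =
        fun g : blockProd A K => (g : GL (ι ⊕ κ) ℂ) (Sum.inl i) (Sum.inl j) := by
      funext g
      conv_rhs => rw [eq_blk A K g]
      rfl
    rw [h1]
    exact entry_mem _ _ _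
  · exact const_mem _ 0
  · exact const_mem _ 0
  · have h1 : (fun g : blockProd A K => ((bmap A e g : blockProd A L) : GL (ι ⊕ μ) ℂ)
        (Sum.inr i) (Sum.inr j)) =
        ((fun g : L => (g : GL μ ℂ) i j) ∘ e) ∘ snd' A K := by
      funext g
      rfl
    rw [h1]
    refine comp_mem (snd' A K) ?_ (h _ (entry_mem L i j))
    intro i j
    have h2 : (fun g : blockProd A K => ((snd' A K g : K) : GL κ ℂ) i j) =
        fun g : blockProd A K => (g : GL (ι ⊕ κ) ℂ) (Sum.inr i) (Sum.inr j) := by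
      funext g
      conv_rhs => rw [eq_blk A K g]
      rfl
    rw [h2]
    exact entry_mem _ _ _

theorem bmap_bmap (A : Subgroup (GL ι ℂ)) {K : Subgroup (GL κ ℂ)} {L : Subgroup (GL μ ℂ)}
    (e : K →* L) (e' : L →* K) (h : ∀ x, e' (e x) = x) (g : blockProd A K) :
    bmap A e' (bmap A e g) = g := by
  apply Subtype.ext
  have h1 := eq_blk A L (bmap A e g)
  have h2 : ((bmap A e g : blockProd A L) : GL (ι ⊕ μ) ℂ) =
    blk (((fst' A K g : A) : GL ι ℂ), ((e (snd' A K g) : L) : GL μ ℂ)) := rfl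
  rw [h2] at h1
  have h3 := blk_inj h1
  have h4 : fst' A L (bmap A e g) = fst' A K g := Subtype.ext (congrArg Prod.fst h3).symm
  have h5 : snd' A L (bmap A e g) = e (snd' A K g) := Subtype.ext (congrArg Prod.snd h3).symm
  change blk (((fst' A L (bmap A e g) : A) : GL ι ℂ),
    ((e' (snd' A L (bmap A e g)) : K) : GL κ ℂ)) = _
  rw [h4, h5, h, ← eq_blk]

theorem AlgIso.blockProd (A : Subgroup (GL ι ℂ)) {K : Subgroup (GL κ ℂ)} {L : Subgroup (GL μ ℂ)}
    (h : AlgIso K L) : AlgIso (PW.blockProd A K) (PW.blockProd A L) := by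
  obtain ⟨e, h1, h2⟩ := h
  refine ⟨⟨⟨bmap A e.toMonoidHom, bmap A e.symm.toMonoidHom, bmap_bmap A _ _ e.symm_apply_apply,
    bmap_bmap A _ _ e.apply_symm_apply⟩, map_mul _⟩, fun f hf => ?_, fun f hf => ?_⟩
  · exact bmap_regular A e.toMonoidHom h1 hf
  · exact bmap_regular A e.symm.toMonoidHom h2 hf

/-- **Products.** -/
theorem CentIn.prod (A : Subgroup (GL ι ℂ)) {K : Subgroup (GL κ ℂ)} {L : Subgroup (GL μ ℂ)}
    (h : CentIn L K) : CentIn (PW.blockProd A L) (PW.blockProd A K) := by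
  obtain ⟨F, hF, hFK, h⟩ := h
  let j : GL κ ℂ →* GL (ι ⊕ κ) ℂ := blk.comp (MonoidHom.inr _ _)
  have hj : ∀ b, j b = blk (1, b) := fun b => rfl
  refine ⟨F.map j, ?_, ?_, ?_⟩
  · exact Finite.of_surjective (fun x : F => (⟨j x, Subgroup.mem_map_of_mem j x.2⟩ : F.map j)) (by
      rintro ⟨_, x, hx, rfl⟩
      exact ⟨⟨x, hx⟩, rfl⟩)
  · rintro _ ⟨x, hx, rfl⟩
    exact mem_blockProd.2 ⟨1, A.one_mem, x, hFK hx, rfl⟩
  · have h1 : PW.blockProd A K ⊓ Subgroup.centralizer ((F.map j : Subgroup (GL (ι ⊕ κ) ℂ)) :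
        Set (GL (ι ⊕ κ) ℂ)) =
        PW.blockProd A (K ⊓ Subgroup.centralizer (F : Set (GL κ ℂ))) := by
      ext g
      rw [Subgroup.mem_inf, mem_blockProd, mem_blockProd, Subgroup.mem_centralizer_iff]
      constructor
      · rintro ⟨⟨a, ha, b, hb, rfl⟩, hc⟩
        refine ⟨a, ha, b, ⟨hb, ?_⟩, rfl⟩
        refine Subgroup.mem_centralizer_iff.2 fun f hf => ?_
        have h2 := hc (j f) (Subgroup.mem_map_of_mem j hf)
        rw [hj, ← map_mul, ← map_mul] at h2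
        exact congrArg Prod.snd (blk_inj h2)
      · rintro ⟨a, ha, b, hb, rfl⟩
        refine ⟨⟨a, ha, b, hb.1, rfl⟩, ?_⟩
        rintro _ ⟨f, hf, rfl⟩
        have h2 := Subgroup.mem_centralizer_iff.1 hb.2 f hf
        rw [hj, ← map_mul, ← map_mul]
        congr 1
        refine Prod.ext ?_ h2
        change 1 * a = a * 1
        rw [one_mul, mul_one]
    rw [h1]
    exact AlgIso.blockProd A h

end prod

end Pool.Agent.H88.PW
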